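import Mathlib

set_option autoImplicit false

namespace Pool.Agent.H728Z.FBC

open FreeGroup

/-- The hub group. -/
abbrev Lam := FreeGroup Bool

/-- First letter of the reduced word. -/
def hd (g : Lam) : Option (Bool × Bool) := g.toWord.head?

theorem hd_eq_none {g : Lam} (h : hd g = none) : g = 1 := by
  unfold hd at h
  exact toWord_eq_nil_iff.mp (List.head?_eq_none_iff.mp h)

theorem norm_le_of_hd_ne {g g' : Lam} (h : hd g ≠ hd g') : norm g ≤ norm (g⁻¹ * g') := by
  have hred : IsReduced (invRev g.toWord ++ g'.toWord) := by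
    have h1 : IsReduced (invRev g.toWord) := by
      rw [← toWord_inv]; exact isReduced_toWord
    have h2 : IsReduced g'.toWord := isReduced_toWord
    unfold FreeGroup.IsReduced at *
    refine List.IsChain.append h1 h2 ?_
    intro a ha b hb hab
    unfold hd at h
    rcases hw : g.toWord with _ | ⟨x, w⟩
    · simp [hw, invRev] at ha
    · rw [hw] at h ha
      simp only [invRev, List.map_cons, List.reverse_cons, List.getLast?_append,
        List.getLast?_singleton, Option.some_or, Option.mem_def, Option.some.injEq] at ha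
      rw [Option.mem_def] at hb
      rw [hb] at h
      simp only [List.head?_cons, ne_eq, Option.some.injEq] at h
      subst ha
      obtain ⟨x1, x2⟩ := x
      obtain ⟨b1, b2⟩ := b
      simp only at hab
      subst hab
      cases x2 <;> cases b2 <;> simp_all
  have : (g⁻¹ * g').toWord = invRev g.toWord ++ g'.toWord := by
    rw [toWord_mul, toWord_inv, hred.reduce_eq]
  unfold FreeGroup.norm
  rw [this]
  simp

theorem toWord_mk_mul {x : Bool × Bool} {g : Lam} (h : hd g ≠ some (x.1, !x.2)) :
    (mk [x] * g).toWord = x :: g.toWord := by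
  have hred : IsReduced (x :: g.toWord) := by
    have h2 : IsReduced g.toWord := isReduced_toWord
    unfold hd at h
    rcases hw : g.toWord with _ | ⟨b, w⟩
    · exact IsReduced.singleton
    · rw [hw] at h h2
      rw [isReduced_cons_cons]
      refine ⟨?_, h2⟩
      obtain ⟨x1, x2⟩ := x
      obtain ⟨b1, b2⟩ := b
      simp only [List.head?_cons, ne_eq, Option.some.injEq, Prod.mk.injEq, not_and] at h
      intro hab
      simp only at hab
      subst hab
      cases x2 <;> cases b2 <;> simp_all
  rw [toWord_mul, toWord_mk, reduce_singleton]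
  exact hred.reduce_eq

theorem hd_mk_mul {x : Bool × Bool} {g : Lam} (h : hd g ≠ some (x.1, !x.2)) :
    hd (mk [x] * g) = some x := by
  unfold hd; rw [toWord_mk_mul h]; rfl

theorem norm_mk_mul {x : Bool × Bool} {g : Lam} (h : hd g ≠ some (x.1, !x.2)) :
    norm (mk [x] * g) = norm g + 1 := by
  unfold FreeGroup.norm; rw [toWord_mk_mul h]; rfl

theorem mk_inv (x : Bool × Bool) : (mk [x] : Lam)⁻¹ = mk [(x.1, !x.2)] := by
  rw [inv_mk]; simp [invRev]

theorem of_eq (b : Bool) : (of b : Lam) = mk [(b, true)] := rfl

theorem of_inv_eq (b : Bool) : (of b : Lam)⁻¹ = mk [(b, false)] := by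
  rw [of_eq, mk_inv]; rfl

theorem hd_cancel {x : Bool × Bool} {g : Lam} (h : hd g = some x) :
    hd ((mk [x] : Lam)⁻¹ * g) ≠ some (x.1, !x.2) := by
  unfold hd at h
  rcases hw : g.toWord with _ | ⟨b, w⟩
  · rw [hw] at h; simp at h
  · rw [hw] at h
    simp only [List.head?_cons, Option.some.injEq] at h
    subst h
    have h2 : IsReduced (b :: w) := hw ▸ isReduced_toWord
    have hg : g = mk [b] * mk w := by
      rw [mul_mk]; simp only [List.cons_append, List.nil_append]; rw [← hw, mk_toWord]
    have hw2 : IsReduced w := by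
      rcases w with _ | ⟨c, w⟩
      · exact IsReduced.nil
      · exact (isReduced_cons_cons.mp h2).2
    rw [hg, inv_mul_cancel_left]
    unfold hd
    rw [toWord_mk, hw2.reduce_eq]
    rcases w with _ | ⟨c, w⟩
    · simp
    · have := (isReduced_cons_cons.mp h2).1
      obtain ⟨x1, x2⟩ := b
      obtain ⟨c1, c2⟩ := c
      simp only [List.head?_cons, ne_eq, Option.some.injEq, Prod.mk.injEq, not_and]
      intro h1
      subst h1
      cases x2 <;> cases c2 <;> simp_all

/-- The paradoxical decomposition: the translating element of copy `b`. -/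
def W (b : Bool) (g : Lam) : Lam := if hd g = some (b, true) then 1 else (of b)⁻¹

/-- The copy that contains `g`. -/
def CC (g : Lam) : Bool := match hd g with
  | some x => x.1
  | none => false

/-- The inverse translating element. -/
def W' (g : Lam) : Lam := if hd g = some (CC g, false) then of (CC g) else 1

theorem norm_W (b : Bool) (g : Lam) : norm (W b g) ≤ 1 := by
  unfold W; split_ifs <;> simp

theorem norm_W' (g : Lam) : norm (W' g) ≤ 1 := by
  unfold W'; split_ifs <;> simp

theorem F1 (b : Bool) (g : Lam) : CC (W b g * g) = b ∧ W' (W b g * g) = (W b g)⁻¹ := by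
  unfold W
  split_ifs with h
  · simp only [one_mul, inv_one]
    have hc : CC g = b := by unfold CC; rw [h]
    refine ⟨hc, ?_⟩
    unfold W'; rw [hc, h]; simp
  · have h2 : hd ((of b : Lam)⁻¹ * g) = some (b, false) := by
      rw [of_inv_eq]; exact hd_mk_mul (by simpa using h)
    have hc : CC ((of b : Lam)⁻¹ * g) = b := by unfold CC; rw [h2]
    refine ⟨hc, ?_⟩
    unfold W'; rw [hc, h2]; simp

theorem F2 (g : Lam) (hg : g ≠ 1) : W (CC g) (W' g * g) = (W' g)⁻¹ := by
  rcases h : hd g with _ | ⟨b, s⟩
  · exact absurd (hd_eq_none h) hg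
  · have hc : CC g = b := by unfold CC; rw [h]
    cases s
    · have hw : W' g = of b := by unfold W'; rw [hc, h]; simp
      rw [hw, hc]
      have := hd_cancel h
      rw [mk_inv] at this
      unfold W
      rw [if_neg]
      simpa [of_eq] using this
    · have hw : W' g = 1 := by unfold W'; rw [hc, h]; simp
      rw [hw, hc]
      unfold W
      simp [h]

theorem F3 (b : Bool) (g g' : Lam) : W b g = W b g' ∨ norm g ≤ norm (g⁻¹ * g') := by
  by_cases h : hd g = hd g'
  · left; unfold W; rw [h]
  · right; exact norm_le_of_hd_ne h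

theorem F4 (g g' : Lam) : (CC g = CC g' ∧ W' g = W' g') ∨ norm g ≤ norm (g⁻¹ * g') := by
  by_cases h : hd g = hd g'
  · left
    have hc : CC g = CC g' := by unfold CC; rw [h]
    refine ⟨hc, ?_⟩
    unfold W'; rw [h, hc]
  · right; exact norm_le_of_hd_ne h

/-- A wedge of copies of the tree (indexed by `B`) is coarsely one copy of the tree. -/
structure WQ (B : Finset ℤ) (C : ℕ) (w : ℤ → Lam → Lam) (cc : Lam → ℤ) (w' : Lam → Lam) :
    Prop where
  nw : ∀ c g, norm (w c g) ≤ C
  nw' : ∀ g, norm (w' g) ≤ C
  mem : ∀ g, cc g ∈ B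
  li : ∀ c ∈ B, ∀ g, cc (w c g * g) = c ∧ w' (w c g * g) = (w c g)⁻¹
  ri : ∀ g : Lam, C < FreeGroup.norm g → w (cc g) (w' g * g) = (w' g)⁻¹
  pc : ∀ c g g', w c g = w c g' ∨ norm g ≤ norm (g⁻¹ * g') + C
  pc' : ∀ g g', (cc g = cc g' ∧ w' g = w' g') ∨ norm g ≤ norm (g⁻¹ * g') + C

theorem norm_le_mul (w g : Lam) : norm g ≤ norm (w * g) + norm w := by
  have := norm_mul_le w⁻¹ (w * g)
  rw [inv_mul_cancel_left, norm_inv_eq] at this
  omega

theorem WQ.mono {B : Finset ℤ} {C C' : ℕ} {w : ℤ → Lam → Lam} {cc : Lam → ℤ} {w' : Lam → Lam}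
    (h : WQ B C w cc w') (hC : C ≤ C') : WQ B C' w cc w' where
  nw c g := (h.nw c g).trans hC
  nw' g := (h.nw' g).trans hC
  mem := h.mem
  li := h.li
  ri g hg := h.ri g (by omega)
  pc c g g' := (h.pc c g g').imp id (fun h => by omega)
  pc' g g' := (h.pc' g g').imp id (fun h => by omega)

theorem exists_WQ (B : Finset ℤ) (hB : B.Nonempty) : ∃ w cc w', WQ B B.card w cc w' := by
  induction hB using Finset.Nonempty.cons_induction with
  | singleton c =>
    refine ⟨fun _ _ => 1, fun _ => c, fun _ => 1, ?_, ?_, ?_, ?_, ?_, ?_, ?_⟩ <;> simp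
  | cons c0 B hc0 hB ih =>
    obtain ⟨w, cc, w', h⟩ := ih
    refine ⟨fun c g => if c = c0 then W false g else W true (w c g * g) * w c g,
      fun g => if CC g = false then c0 else cc (W' g * g),
      fun g => if CC g = false then W' g else w' (W' g * g) * W' g, ?_, ?_, ?_, ?_, ?_, ?_, ?_⟩
    · intro c g
      rw [Finset.card_cons]
      split_ifs
      · have := norm_W false g; omega
      · have := norm_mul_le (W true (w c g * g)) (w c g)
        have := norm_W true (w c g * g)
        have := h.nw c g
        omega
    · intro g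
      rw [Finset.card_cons]
      split_ifs
      · have := norm_W' g; omega
      · have := norm_mul_le (w' (W' g * g)) (W' g)
        have := norm_W' g
        have := h.nw' (W' g * g)
        omega
    · intro g
      split_ifs
      · simp
      · exact Finset.mem_cons_of_mem (h.mem _)
    · intro c hc g
      by_cases hcc : c = c0
      · subst hcc
        simp only [if_true]
        obtain ⟨h1, h2⟩ := F1 false g
        simp only [h1, if_true, h2, and_self]
      · have hcB : c ∈ B := by
          rcases Finset.mem_cons.mp hc with h | h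
          · exact absurd h hcc
          · exact h
        simp only [if_neg hcc]
        obtain ⟨h1, h2⟩ := F1 true (w c g * g)
        rw [mul_assoc]
        simp only [h1, h2, Bool.true_eq_false, if_false, inv_mul_cancel_left]
        obtain ⟨h3, h4⟩ := h.li c hcB g
        rw [h3, h4]
        simp
    · intro g hg
      rw [Finset.card_cons] at hg
      have hg1 : g ≠ 1 := by rintro rfl; simp at hg
      have h2 := F2 g hg1
      by_cases hc : CC g = false
      · simp only [hc, if_true]
        rw [hc] at h2; exact h2
      · simp only [if_neg hc]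
        have hne : cc (W' g * g) ≠ c0 := by
          intro e; exact hc0 (e ▸ h.mem _)
        simp only [if_neg hne]
        have hn : B.card < norm (W' g * g) := by
          have := norm_le_mul (W' g) g
          have := norm_W' g
          omega
        have h3 := h.ri _ hn
        rw [mul_assoc, h3]
        have hc' : CC g = true := by simpa using hc
        rw [hc'] at h2
        rw [inv_mul_cancel_left, h2]
        simp
    · intro c g g'
      rw [Finset.card_cons]
      by_cases hcc : c = c0
      · simp only [if_pos hcc]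
        rcases F3 false g g' with h1 | h1
        · left; exact h1
        · right; omega
      · simp only [if_neg hcc]
        rcases h.pc c g g' with h1 | h1
        · rw [← h1]
          rcases F3 true (w c g * g) (w c g * g') with h2 | h2
          · left; rw [h2]
          · right
            have e : (w c g * g)⁻¹ * (w c g * g') = g⁻¹ * g' := by group
            rw [e] at h2
            have := norm_le_mul (w c g) g
            have := h.nw c g
            omega
        · right; omega
    · intro g g'
      rw [Finset.card_cons]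
      rcases F4 g g' with ⟨h1, h2⟩ | h1
      · rw [← h1, ← h2]
        by_cases hc : CC g = false
        · simp [hc]
        · simp only [if_neg hc]
          rcases h.pc' (W' g * g) (W' g * g') with ⟨h3, h4⟩ | h3
          · left; exact ⟨h3, by rw [h4]⟩
          · right
            have e : (W' g * g)⁻¹ * (W' g * g') = g⁻¹ * g' := by group
            rw [e] at h3
            have := norm_le_mul (W' g) g
            have := norm_W' g
            omega
      · right; omega

/-- A norm increasing injection. -/
def lam1 (b : Bool) (g : Lam) : Lam :=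
  if hd g = some (b, false) then mk [(b, false)] * g else mk [(b, true)] * g

theorem lam1_spec (b : Bool) (g : Lam) :
    ∃ s : Bool, lam1 b g = mk [(b, s)] * g ∧ hd g ≠ some (b, !s) := by
  unfold lam1
  split_ifs with h
  · exact ⟨false, rfl, by rw [h]; simp⟩
  · exact ⟨true, rfl, by simpa using h⟩

theorem lam1_inj {b b' : Bool} {g g' : Lam} (h : lam1 b g = lam1 b' g') : b = b' ∧ g = g' := by
  obtain ⟨s, h1, h2⟩ := lam1_spec b g
  obtain ⟨s', h1', h2'⟩ := lam1_spec b' g'
  rw [h1, h1'] at h
  have h3 := congrArg toWord h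
  rw [toWord_mk_mul (x := (b, s)) h2, toWord_mk_mul (x := (b', s')) h2'] at h3
  simp only [List.cons.injEq, Prod.mk.injEq] at h3
  exact ⟨h3.1.1, toWord_injective h3.2⟩

/-- Iterated right multiplication without cancellation. -/
def push (f : ℕ → Bool) : ℕ → Lam → Lam
  | 0, g => g
  | n + 1, g => (lam1 (f n) (push f n g)⁻¹)⁻¹

theorem norm_push (f : ℕ → Bool) (n : ℕ) (g : Lam) : norm (push f n g) = norm g + n := by
  induction n with
  | zero => rfl
  | succ n ih =>
    unfold push
    obtain ⟨s, h1, h2⟩ := lam1_spec (f n) (push f n g)⁻¹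
    rw [norm_inv_eq, h1, norm_mk_mul (x := (f n, s)) h2, norm_inv_eq, ih]
    omega

theorem disp_push (f : ℕ → Bool) (n : ℕ) (g : Lam) : norm (g⁻¹ * push f n g) ≤ n := by
  induction n with
  | zero => simp [push]
  | succ n ih =>
    unfold push
    obtain ⟨s, h1, h2⟩ := lam1_spec (f n) (push f n g)⁻¹
    rw [h1, mul_inv_rev, inv_inv, ← mul_assoc]
    have := norm_mul_le (g⁻¹ * push f n g) (mk [(f n, s)])⁻¹
    have h3 : norm (mk [(f n, s)] : Lam)⁻¹ ≤ 1 := by
      rw [norm_inv_eq]; exact norm_mk_le
    omega

theorem push_inj {f f' : ℕ → Bool} {n : ℕ} {g g' : Lam} (h : push f n g = push f' n g') :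
    g = g' ∧ ∀ i < n, f i = f' i := by
  induction n with
  | zero => exact ⟨h, fun i hi => absurd hi (by omega)⟩
  | succ n ih =>
    unfold push at h
    obtain ⟨h1, h2⟩ := lam1_inj (inv_injective h)
    obtain ⟨h3, h4⟩ := ih (inv_injective h2)
    refine ⟨h3, fun i hi => ?_⟩
    rcases Nat.lt_succ_iff_lt_or_eq.mp hi with h5 | h5
    · exact h4 i h5
    · rw [h5]; exact h1

theorem exists_push (E : Type) [Finite E] (K : ℕ) : ∃ (N : ℕ) (ρ : Lam → E → Lam),
    (∀ g a, K < norm (ρ g a)) ∧ (∀ g a, norm (g⁻¹ * ρ g a) ≤ N) ∧
    (∀ g a g' a', ρ g a = ρ g' a' → g = g' ∧ a = a') := by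
  obtain ⟨n, ⟨e⟩⟩ := Finite.exists_equiv_fin E
  refine ⟨n + K + 1, fun g a => push (fun i => decide (i = (e a).val)) (n + K + 1) g, ?_, ?_, ?_⟩
  · intro g a; rw [norm_push]; omega
  · intro g a; exact disp_push _ _ _
  · intro g a g' a' h
    obtain ⟨h1, h2⟩ := push_inj h
    refine ⟨h1, ?_⟩
    have := h2 (e a).val (by have := (e a).2; omega)
    simp only [decide_true, true_eq_decide_iff] at this
    exact e.injective (Fin.ext this)

end Pool.Agent.H728Z.FBC
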