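import Pool.Agent.H728Z.FBC.Lip

set_option autoImplicit false

namespace Pool.Agent.H728Z.FBC

/-- Admissible scaling factors. -/
def Bd (x : ℝ) : Prop := 1 / 3 ≤ |x| ∧ |x| ≤ 3

theorem Bd.ne {x : ℝ} (h : Bd x) : x ≠ 0 := by
  rintro rfl
  have := h.1
  simp only [abs_zero] at this
  linarith

theorem Bd.inv {x : ℝ} (h : Bd x) : Bd x⁻¹ := by
  have h0 : 0 < |x| := abs_pos.mpr h.ne
  unfold Bd
  rw [abs_inv]
  constructor
  · rw [one_div]; exact inv_anti₀ h0 h.2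
  · rw [inv_le_comm₀ h0 (by norm_num)]; simpa using h.1

variable {T₁ T₂ : Type}

/-- `L` maps the three directions to the three directions with admissible factors. -/
def Good (D₁ : Data T₁) (D₂ : Data T₂) (τ : T₁) (τ' : T₂) (σ : Equiv.Perm (Fin 3))
    (L : V ≃ₗ[ℝ] V) (lam : Fin 3 → ℝ) : Prop :=
  ∀ j, L (cv (D₁.z τ j)) = lam j • cv (D₂.z τ' (σ j)) ∧ Bd (lam j)

theorem Good.symm {D₁ : Data T₁} {D₂ : Data T₂} {τ : T₁} {τ' : T₂} {σ : Equiv.Perm (Fin 3)}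
    {L : V ≃ₗ[ℝ] V} {lam : Fin 3 → ℝ} (h : Good D₁ D₂ τ τ' σ L lam) :
    Good D₂ D₁ τ' τ σ.symm L.symm (fun j => (lam (σ.symm j))⁻¹) := by
  intro j
  obtain ⟨h1, h2⟩ := h (σ.symm j)
  refine ⟨?_, h2.inv⟩
  rw [Equiv.apply_symm_apply] at h1
  rw [LinearEquiv.symm_apply_eq, map_smul, h1, smul_smul, inv_mul_cancel₀ h2.ne, one_smul]

/-- A plane entered through `α` may be matched with a plane entered through `α'` when the
fibre is scaled by `x`. -/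
def Allowed (D₁ : Data T₁) (D₂ : Data T₂) (x : ℝ) (α : T₁ × Fin 3) (α' : T₂ × Fin 3) : Prop :=
  ∃ σ L lam, Good D₁ D₂ α.1 α'.1 σ L lam ∧ σ α.2 = α'.2 ∧ lam α.2 = x

/-- Real determinant. -/
def dt (v w : V) : ℝ := v.1 * w.2 - v.2 * w.1

theorem abs_dt_le (v w : V) : |dt v w| ≤ 2 * (‖v‖ * ‖w‖) := by
  have h1 : |v.1| ≤ ‖v‖ := norm_fst_le v
  have h2 : |v.2| ≤ ‖v‖ := norm_snd_le v
  have h3 : |w.1| ≤ ‖w‖ := norm_fst_le w
  have h4 : |w.2| ≤ ‖w‖ := norm_snd_le w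
  unfold dt
  refine (abs_sub _ _).trans ?_
  rw [abs_mul, abs_mul]
  have := mul_le_mul h1 h4 (abs_nonneg _) (norm_nonneg _)
  have := mul_le_mul h2 h3 (abs_nonneg _) (norm_nonneg _)
  linarith

theorem dt_cv (v w : ℤ × ℤ) : dt (cv v) (cv w) = (detZ v w : ℝ) := by simp [dt, cv, detZ]

theorem exists_K0 [Finite T₁] [Finite T₂] (D₁ : Data T₁) (D₂ : Data T₂) : ∃ K : ℕ,
    ∀ τ τ' σ L lam, Good D₁ D₂ τ τ' σ L lam → ∀ x, ‖L x‖ ≤ K * ‖x‖ := by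
  obtain ⟨Z₁, h₁⟩ := exists_Z D₁
  obtain ⟨Z₂, h₂⟩ := exists_Z D₂
  refine ⟨12 * Z₁ * Z₂, ?_⟩
  intro τ τ' σ L lam h x
  set u := cv (D₁.z τ 0)
  set v := cv (D₁.z τ 1)
  have hd : 1 ≤ |dt u v| := by
    rw [dt_cv]
    exact_mod_cast Int.one_le_abs (D₁.A6 τ)
  have hd0 : dt u v ≠ 0 := by intro h0; rw [h0] at hd; norm_num at hd
  have e : x = (dt x v / dt u v) • u + (dt u x / dt u v) • v := by
    ext
    · simp only [Prod.fst_add, Prod.smul_fst, smul_eq_mul]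
      field_simp
      unfold dt; ring
    · simp only [Prod.snd_add, Prod.smul_snd, smul_eq_mul]
      field_simp
      unfold dt; ring
  have hx := norm_nonneg x
  have hs : |dt x v / dt u v| ≤ 2 * (‖x‖ * Z₁) := by
    rw [abs_div]
    refine (div_le_self (abs_nonneg _) hd).trans ((abs_dt_le _ _).trans ?_)
    have := h₁ τ 1
    gcongr
  have ht : |dt u x / dt u v| ≤ 2 * (‖x‖ * Z₁) := by
    rw [abs_div]
    refine (div_le_self (abs_nonneg _) hd).trans ((abs_dt_le _ _).trans ?_)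
    have := h₁ τ 0
    rw [mul_comm ‖u‖]
    gcongr
  have hu : ‖L u‖ ≤ 3 * Z₂ := by
    rw [(h 0).1, norm_smul, Real.norm_eq_abs]
    have := (h 0).2.2
    have := h₂ τ' (σ 0)
    gcongr
  have hv : ‖L v‖ ≤ 3 * Z₂ := by
    rw [(h 1).1, norm_smul, Real.norm_eq_abs]
    have := (h 1).2.2
    have := h₂ τ' (σ 1)
    gcongr
  calc ‖L x‖ = ‖(dt x v / dt u v) • L u + (dt u x / dt u v) • L v‖ := by
        conv_lhs => rw [e]
        rw [map_add, map_smul, map_smul]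
    _ ≤ |dt x v / dt u v| * ‖L u‖ + |dt u x / dt u v| * ‖L v‖ := by
        refine (norm_add_le _ _).trans ?_
        rw [norm_smul, norm_smul, Real.norm_eq_abs, Real.norm_eq_abs]
    _ ≤ 2 * (‖x‖ * Z₁) * (3 * Z₂) + 2 * (‖x‖ * Z₁) * (3 * Z₂) := by gcongr
    _ = _ := by push_cast; ring

/-- Quarter turn. -/
def perp (v : V) : V := (-v.2, v.1)

theorem sq_ge {w : ℤ × ℤ} (h : w ≠ 0) :
    1 ≤ (cv w).1 ^ 2 + (cv w).2 ^ 2 ∧ ‖perp (cv w)‖ ≤ (cv w).1 ^ 2 + (cv w).2 ^ 2 := by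
  have h1 : |w.1| ≤ w.1 ^ 2 := by
    rcases eq_or_ne w.1 0 with h0 | h0
    · simp [h0]
    · have := Int.one_le_abs h0
      rw [← sq_abs]; nlinarith
  have h2 : |w.2| ≤ w.2 ^ 2 := by
    rcases eq_or_ne w.2 0 with h0 | h0
    · simp [h0]
    · have := Int.one_le_abs h0
      rw [← sq_abs]; nlinarith
  have h1' : |(w.1 : ℝ)| ≤ (w.1 : ℝ) ^ 2 := by exact_mod_cast h1
  have h2' : |(w.2 : ℝ)| ≤ (w.2 : ℝ) ^ 2 := by exact_mod_cast h2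
  have h3 : ‖perp (cv w)‖ ≤ (cv w).1 ^ 2 + (cv w).2 ^ 2 := by
    simp only [perp, cv, Prod.norm_def, Real.norm_eq_abs, sup_le_iff, abs_neg]
    constructor <;> nlinarith [sq_nonneg (w.1 : ℝ), sq_nonneg (w.2 : ℝ)]
  refine ⟨?_, h3⟩
  have h4 := one_le_norm_cv h
  have h5 : ‖perp (cv w)‖ = ‖cv w‖ := by
    simp only [perp, Prod.norm_def, norm_neg]; exact max_comm _ _
  linarith

theorem decomp (z x : V) (h : z.1 ^ 2 + z.2 ^ 2 ≠ 0) :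
    x = ((x.1 * z.1 + x.2 * z.2) / (z.1 ^ 2 + z.2 ^ 2)) • z +
      (dt z x / (z.1 ^ 2 + z.2 ^ 2)) • perp z := by
  ext
  · simp only [Prod.fst_add, Prod.smul_fst, smul_eq_mul, perp]
    field_simp
    unfold dt; ring
  · simp only [Prod.snd_add, Prod.smul_snd, smul_eq_mul, perp]
    field_simp
    unfold dt; ring

theorem exists_proj {w : ℤ × ℤ} (h : w ≠ 0) (u : V) : ∃ s : ℝ, ‖u - s • cv w‖ ≤ |dt (cv w) u| := by
  obtain ⟨h1, h2⟩ := sq_ge h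
  have h0 : (cv w).1 ^ 2 + (cv w).2 ^ 2 ≠ 0 := by linarith
  refine ⟨(u.1 * (cv w).1 + u.2 * (cv w).2) / ((cv w).1 ^ 2 + (cv w).2 ^ 2), ?_⟩
  have e := decomp (cv w) u h0
  rw [← sub_eq_iff_eq_add'] at e
  rw [e, norm_smul, Real.norm_eq_abs, abs_div, abs_of_pos (by linarith : (0 : ℝ) < _ + _),
    div_mul_eq_mul_div, div_le_iff₀ (by linarith)]
  gcongr

theorem exists_mu {z z' : ℤ × ℤ} (h : z ≠ 0) (L : V ≃ₗ[ℝ] V) (lam : ℝ)
    (hL : L (cv z) = lam • cv z') : ∃ μ : ℝ, |μ| ≤ 2 * (‖cv z'‖ * ‖L (perp (cv z))‖) ∧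
      ∀ x, dt (cv z') (L x) = μ * dt (cv z) x := by
  obtain ⟨h1, h2⟩ := sq_ge h
  have h0 : (cv z).1 ^ 2 + (cv z).2 ^ 2 ≠ 0 := by linarith
  refine ⟨dt (cv z') (L (perp (cv z))) / ((cv z).1 ^ 2 + (cv z).2 ^ 2), ?_, fun x => ?_⟩
  · rw [abs_div, abs_of_pos (by linarith : (0 : ℝ) < _ + _)]
    exact (div_le_self (abs_nonneg _) h1).trans (abs_dt_le _ _)
  · conv_lhs => rw [decomp (cv z) x h0]
    rw [map_add, map_smul, map_smul, hL]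
    simp only [dt, Prod.fst_add, Prod.snd_add, Prod.smul_fst, Prod.smul_snd, smul_eq_mul]
    field_simp
    ring

theorem exists_K1 [Finite T₁] [Finite T₂] (D₁ : Data T₁) (D₂ : Data T₂) : ∃ K : ℕ,
    ∀ τ τ' σ L lam, Good D₁ D₂ τ τ' σ L lam → ∀ j, ∃ μ : ℝ, |μ| ≤ K ∧
      ∀ x, dt (cv (D₂.z τ' (σ j))) (L x) = μ * dt (cv (D₁.z τ j)) x := by
  obtain ⟨Z₁, h₁⟩ := exists_Z D₁
  obtain ⟨Z₂, h₂⟩ := exists_Z D₂
  obtain ⟨K, hK⟩ := exists_K0 D₁ D₂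
  refine ⟨2 * (Z₂ * (K * Z₁)), ?_⟩
  intro τ τ' σ L lam h j
  obtain ⟨μ, h1, h2⟩ := exists_mu (D₁.A5 τ j) L _ (h j).1
  refine ⟨μ, h1.trans ?_, h2⟩
  have h3 := hK τ τ' σ L lam h (perp (cv (D₁.z τ j)))
  have h5 : ‖perp (cv (D₁.z τ j))‖ = ‖cv (D₁.z τ j)‖ := by
    simp only [perp, Prod.norm_def, norm_neg]; exact max_comm _ _
  rw [h5] at h3
  have h4 := h₁ τ j
  have h6 := h₂ τ' (σ j)
  push_cast
  have h7 : ‖L (perp (cv (D₁.z τ j)))‖ ≤ K * Z₁ := h3.trans (by gcongr)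
  gcongr

theorem exists_K2 [Finite T₁] [Finite T₂] (D₁ : Data T₁) (D₂ : Data T₂) : ∃ K : ℕ, 1 ≤ K ∧
    ∀ τ τ' σ L lam, Good D₁ D₂ τ τ' σ L lam → ∀ j, ∃ μ : ℝ, |μ| ≤ K ∧ 1 ≤ |μ| * K ∧
      ∀ x, dt (cv (D₂.z τ' (σ j))) (L x) = μ * dt (cv (D₁.z τ j)) x := by
  obtain ⟨K₁, h₁⟩ := exists_K1 D₁ D₂
  obtain ⟨K₂, h₂⟩ := exists_K1 D₂ D₁
  refine ⟨K₁ + K₂ + 1, by omega, ?_⟩
  intro τ τ' σ L lam h j
  obtain ⟨μ, h1, h2⟩ := h₁ τ τ' σ L lam h j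
  obtain ⟨μ', h1', h2'⟩ := h₂ _ _ _ _ _ h.symm (σ j)
  refine ⟨μ, by push_cast; linarith [Nat.cast_nonneg (α := ℝ) K₂], ?_, h2⟩
  have h3 := h2' (L (perp (cv (D₁.z τ j))))
  rw [h2, Equiv.symm_apply_apply, LinearEquiv.symm_apply_apply] at h3
  have h4 := (sq_ge (D₁.A5 τ j)).1
  have h5 : dt (cv (D₁.z τ j)) (perp (cv (D₁.z τ j))) =
      (cv (D₁.z τ j)).1 ^ 2 + (cv (D₁.z τ j)).2 ^ 2 := by simp only [dt, perp]; ring
  have h6 : μ' * μ = 1 := by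
    have h7 : dt (cv (D₁.z τ j)) (perp (cv (D₁.z τ j))) ≠ 0 := by rw [h5]; linarith
    rw [← mul_assoc] at h3
    exact (mul_eq_right₀ h7).mp h3.symm
  have h8 : |μ'| * |μ| = 1 := by rw [← abs_mul, h6, abs_one]
  have h9 := abs_nonneg μ
  have h10 := Nat.cast_nonneg (α := ℝ) K₁
  push_cast
  nlinarith

theorem floor_close {D x y : ℝ} (hD : 0 < D) (h : ⌊x / D⌋ = ⌊y / D⌋) : |x - y| ≤ D := by
  have h1 := Int.abs_sub_lt_one_of_floor_eq_floor h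
  rw [← sub_div, abs_div, abs_of_pos hD, div_lt_one hD] at h1
  exact h1.le

theorem two_points {K : ℕ} (hK : 1 ≤ K) {μ : ℝ} (h0 : 0 < μ) (h1 : μ ≤ K) (ν : ℝ) (k : ℤ) :
    ∃ c : ℤ, ⌊(μ * c + ν) / (3 * K)⌋ = k ∧ ⌊(μ * (c + 1 : ℤ) + ν) / (3 * K)⌋ = k := by
  have hK' : (1 : ℝ) ≤ K := by exact_mod_cast hK
  have h2 := Int.le_ceil ((k * (3 * K) - ν) / μ)
  have h3 := Int.ceil_lt_add_one ((k * (3 * K) - ν) / μ)
  set c := ⌈(k * (3 * K) - ν) / μ⌉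
  rw [div_le_iff₀ h0] at h2
  rw [← sub_lt_iff_lt_add, lt_div_iff₀ h0] at h3
  refine ⟨c, ?_, ?_⟩ <;> rw [Int.floor_eq_iff, le_div_iff₀ (by positivity),
    div_lt_iff₀ (by positivity)] <;> push_cast <;> constructor <;> nlinarith

theorem blockOK {K : ℕ} (hK : 1 ≤ K) (μ ν : Fin 3 → ℝ) (h : ∀ j, |μ j| ≤ K ∧ 1 ≤ |μ j| * K)
    (en : Option (Fin 3)) :
    BlockOK (6 * K ^ 2 + 1) en (fun j c => ⌊(μ j * c + ν j) / (3 * K)⌋) := by
  classical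
  intro j k
  have hK' : (1 : ℝ) ≤ K := by exact_mod_cast hK
  obtain ⟨h1, h2⟩ := h j
  have hex : ∃ c : ℤ, c ≠ 0 ∧ ⌊(μ j * c + ν j) / (3 * K)⌋ = k := by
    rcases lt_trichotomy (μ j) 0 with h0 | h0 | h0
    · obtain ⟨c, h3, h4⟩ := two_points hK (μ := -μ j) (by linarith)
        (by rw [abs_of_neg h0] at h1; exact h1) (ν j) k
      by_cases hc : c = 0
      · refine ⟨-(c + 1), by omega, ?_⟩
        rw [← h4]; congr 2; push_cast; ring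
      · refine ⟨-c, by omega, ?_⟩
        rw [← h3]; congr 2; push_cast; ring
    · rw [h0] at h2; norm_num at h2
    · obtain ⟨c, h3, h4⟩ := two_points hK h0 (by rw [abs_of_pos h0] at h1; exact h1) (ν j) k
      by_cases hc : c = 0
      · exact ⟨c + 1, by omega, h4⟩
      · exact ⟨c, hc, h3⟩
  obtain ⟨c0, hc0, hk⟩ := hex
  refine ⟨(Finset.Icc (c0 - 3 * K ^ 2) (c0 + 3 * K ^ 2)).filter
    (fun c => ⌊(μ j * c + ν j) / (3 * K)⌋ = k ∧ ¬ (en = some j ∧ c = 0)), ⟨c0, ?_⟩, ?_, ?_⟩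
  · simp only [Finset.mem_filter, Finset.mem_Icc]
    refine ⟨⟨by nlinarith [sq_nonneg (K : ℤ)], by nlinarith [sq_nonneg (K : ℤ)]⟩, hk,
      fun h => hc0 h.2⟩
  · refine (Finset.card_filter_le _ _).trans ?_
    rw [Int.card_Icc]
    have : c0 + 3 * (K : ℤ) ^ 2 + 1 - (c0 - 3 * (K : ℤ) ^ 2) = ((6 * K ^ 2 + 1 : ℕ) : ℤ) := by
      push_cast; ring
    rw [this, Int.toNat_natCast]
  · intro c
    simp only [Finset.mem_filter, Finset.mem_Icc, and_iff_right_iff_imp]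
    rintro ⟨h3, -⟩
    have h4 := floor_close (by positivity) (h3.trans hk.symm)
    have e : μ j * c + ν j - (μ j * c0 + ν j) = μ j * ((c - c0 : ℤ) : ℝ) := by push_cast; ring
    rw [e, abs_mul] at h4
    have h5 : |((c - c0 : ℤ) : ℝ)| ≤ 3 * K ^ 2 := by
      have := abs_nonneg ((c - c0 : ℤ) : ℝ)
      nlinarith
    have h6 : |c - c0| ≤ 3 * (K : ℤ) ^ 2 := by exact_mod_cast h5
    rw [abs_le] at h6
    constructor <;> linarith [h6.1, h6.2]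

/-- State of a matched pair of planes. -/
structure St where
  σ : Equiv.Perm (Fin 3)
  L : V ≃ₗ[ℝ] V
  lam : Fin 3 → ℝ
  t : V

/-- The affine map of a state. -/
def St.F (S : St) (x : V) : V := S.L x + S.t

/-- Its inverse. -/
def St.F' (S : St) (y : V) : V := S.L.symm (y - S.t)

theorem one_step [Finite T₁] [Finite T₂] (D₁ : Data T₁) (D₂ : Data T₂)
    (hA₁ : ∀ x, Bd x → ∀ α, ∃ α', Allowed D₁ D₂ x α α')
    (hA₂ : ∀ x, Bd x → ∀ α', ∃ α, Allowed D₁ D₂ x α α') : ∃ K : ℕ,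
    ∀ (τ : T₁) (en : Option (Fin 3)) (τ' : T₂) (en' : Option (Fin 3)) (S : St),
      ∃ (m : Step T₁ → Step T₂) (m' : Step T₂ → Step T₁) (nx : Step T₁ → St),
      Good D₁ D₂ τ τ' S.σ S.L S.lam →
      (∀ a, VS τ en a → VS τ' en' (m a) ∧ m' (m a) = a ∧
        Good D₁ D₂ a.τ (m a).τ (nx a).σ (nx a).L (nx a).lam) ∧
      (∀ a', VS τ' en' a' → VS τ en (m' a') ∧ m (m' a') = a') ∧
      Half D₁ D₂ K τ en τ' S.F m (fun a => (nx a).F) ∧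
      Half D₂ D₁ K τ' en' τ S.F' m' (fun a' => (nx (m' a')).F') := by
  classical
  obtain ⟨K0, hK0⟩ := exists_K0 D₁ D₂
  obtain ⟨K0', hK0'⟩ := exists_K0 D₂ D₁
  obtain ⟨K2, hK2, hK2'⟩ := exists_K2 D₁ D₂
  obtain ⟨C, hC⟩ := exists_matching T₁ T₂ (6 * K2 ^ 2 + 1)
  refine ⟨K0 + K0' + C + (4 * K2 + 1) + K0' * (4 * K2 + 1), ?_⟩
  intro τ en τ' en' S
  by_cases hG : Good D₁ D₂ τ τ' S.σ S.L S.lam
  swap
  · exact ⟨fun _ => ⟨0, 0, 1, τ', 0⟩, fun _ => ⟨0, 0, 1, τ, 0⟩, fun _ => S, fun h => absurd h hG⟩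
  have hK2r : (1 : ℝ) ≤ K2 := by exact_mod_cast hK2
  choose μ hμ1 hμ2 hμ3 using hK2' τ τ' S.σ S.L S.lam hG
  obtain ⟨m, m', H1, H2, H3, H4⟩ := hC τ en τ' en' _ _
    (blockOK hK2 μ (fun j => dt (cv (D₂.z τ' (S.σ j))) S.t) (fun j => ⟨hμ1 j, hμ2 j⟩) en)
    (blockOK hK2 (fun _ => 1) (fun _ => 0) (fun j => ⟨by simpa using hK2r, by simpa using hK2r⟩)
      en') S.σ (fun j => Allowed D₁ D₂ (S.lam j)) (fun j => hA₁ _ (hG j).2)
      (fun j => hA₂ _ (hG j).2)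
  have H5 : ∀ a : Step T₁, ∃ (nx : St) (t : ℝ), VS τ en a →
      Good D₁ D₂ a.τ (m a).τ nx.σ nx.L nx.lam ∧ nx.σ a.i = (m a).i ∧ nx.lam a.i = S.lam a.j ∧
      nx.t = t • cv (D₂.z (m a).τ (m a).i) ∧
      ‖S.F (cv (D₁.r τ a.j a.c)) -
        (cv (D₂.r τ' (m a).j (m a).c) + t • cv (D₂.z τ' (m a).j))‖ ≤ 4 * K2 + 1 := by
    intro a
    by_cases ha : VS τ en a
    swap
    · exact ⟨S, 0, fun h => absurd h ha⟩
    obtain ⟨-, -, h3, h4, σ, L, lam, h5, h6, h7⟩ := H1 a ha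
    obtain ⟨t, ht⟩ := exists_proj (D₂.A5 τ' (m a).j)
      (S.F (cv (D₁.r τ a.j a.c)) - cv (D₂.r τ' (m a).j (m a).c))
    refine ⟨⟨σ, L, lam, t • cv (D₂.z (m a).τ (m a).i)⟩, t, fun _ => ⟨h5, h6, h7, rfl, ?_⟩⟩
    rw [← sub_sub]
    refine ht.trans ?_
    have h8 := floor_close (by positivity) h4
    have h9 := hμ3 a.j (cv (D₁.r τ a.j a.c))
    rw [← h3, dt_cv] at h9
    rw [← h3] at h8
    have h10 : |(a.c : ℝ) - detZ (D₁.z τ a.j) (D₁.r τ a.j a.c)| ≤ 1 := by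
      exact_mod_cast D₁.A4 τ a.j a.c
    have h11 : |((m a).c : ℝ) - detZ (D₂.z τ' (m a).j) (D₂.r τ' (m a).j (m a).c)| ≤ 1 := by
      exact_mod_cast D₂.A4 τ' (m a).j (m a).c
    have e : dt (cv (D₂.z τ' (m a).j)) (S.F (cv (D₁.r τ a.j a.c)) - cv (D₂.r τ' (m a).j (m a).c))
        = (μ a.j * a.c + dt (cv (D₂.z τ' (m a).j)) S.t - (1 * (m a).c + 0))
          - μ a.j * ((a.c : ℝ) - detZ (D₁.z τ a.j) (D₁.r τ a.j a.c))
          + (((m a).c : ℝ) - detZ (D₂.z τ' (m a).j) (D₂.r τ' (m a).j (m a).c)) := by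
      have e1 : dt (cv (D₂.z τ' (m a).j))
          (S.F (cv (D₁.r τ a.j a.c)) - cv (D₂.r τ' (m a).j (m a).c))
          = dt (cv (D₂.z τ' (m a).j)) (S.L (cv (D₁.r τ a.j a.c))) + dt (cv (D₂.z τ' (m a).j)) S.t
            - dt (cv (D₂.z τ' (m a).j)) (cv (D₂.r τ' (m a).j (m a).c)) := by
        simp only [dt, St.F, Prod.fst_add, Prod.snd_add, Prod.fst_sub, Prod.snd_sub]; ring
      rw [e1, h9, dt_cv]; ring
    rw [e]
    refine (abs_add_le _ _).trans ?_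
    have h12 := abs_sub (μ a.j * a.c + dt (cv (D₂.z τ' (m a).j)) S.t - (1 * (m a).c + 0))
      (μ a.j * ((a.c : ℝ) - detZ (D₁.z τ a.j) (D₁.r τ a.j a.c)))
    have h13 : |μ a.j * ((a.c : ℝ) - detZ (D₁.z τ a.j) (D₁.r τ a.j a.c))| ≤ K2 * 1 := by
      rw [abs_mul]
      have := hμ1 a.j
      gcongr
    linarith
  choose nx t H6 using H5
  have n0 := Nat.cast_nonneg (α := ℝ) K0
  have n1 := Nat.cast_nonneg (α := ℝ) K0'
  have n2 := Nat.cast_nonneg (α := ℝ) C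
  refine ⟨m, m', nx, fun _ => ⟨fun a ha => ⟨(H1 a ha).1, (H1 a ha).2.1, (H6 a ha).1⟩, H2,
    ⟨?_, H3.mono (by omega), S.σ, S.lam, ?_, ?_⟩,
    ⟨?_, H4.mono (by omega), S.σ.symm, fun j => (S.lam (S.σ.symm j))⁻¹, ?_, ?_⟩⟩⟩
  · intro x y
    have := hK0 _ _ _ _ _ hG (x - y)
    have e : S.F x - S.F y = S.L (x - y) := by simp [St.F]
    rw [e]
    refine this.trans ?_
    have := norm_nonneg (x - y)
    gcongr
    push_cast; nlinarith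
  · intro j x n
    simp only [St.F, map_add, map_smul, (hG j).1, smul_smul]
    module
  · intro a ha
    obtain ⟨h1, h2, h3, h4, h5⟩ := H6 a ha
    refine ⟨(H1 a ha).2.2.1, t a, h5.trans ?_, fun n => ?_⟩
    · push_cast; nlinarith
    · simp only [St.F, map_smul, (h1 a.i).1, h2, h3, h4, smul_smul]
      module
  · intro x y
    have := hK0' _ _ _ _ _ hG.symm (x - y)
    have e : S.F' x - S.F' y = S.L.symm (x - y) := by simp [St.F']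
    rw [e]
    refine this.trans ?_
    have := norm_nonneg (x - y)
    gcongr
    push_cast; nlinarith
  · intro j x n
    have e : x + n • cv (D₂.z τ' j) - S.t = (x - S.t) + n • cv (D₂.z τ' j) := by abel
    simp only [St.F', e, map_add, map_smul, (hG.symm j).1, smul_smul]
    module
  · intro a' ha'
    obtain ⟨ha, e⟩ := H2 a' ha'
    set a := m' a' with hadef
    obtain ⟨h1, h2, h3, h4, h5⟩ := H6 a ha
    have h6 := (H1 a ha).2.2.1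
    rw [e] at h1 h2 h4 h5 h6
    have h7 : S.σ.symm a'.j = a.j := by rw [h6]; simp
    have hb := (hG a.j).2
    refine ⟨h7.symm, -(t a) * (S.lam a.j)⁻¹, ?_, fun n => ?_⟩
    · have e2 : S.F' (cv (D₂.r τ' a'.j a'.c)) -
          (cv (D₁.r τ a.j a.c) + (-(t a) * (S.lam a.j)⁻¹) • cv (D₁.z τ a.j))
          = -S.L.symm (S.F (cv (D₁.r τ a.j a.c)) -
            (cv (D₂.r τ' a'.j a'.c) + t a • cv (D₂.z τ' a'.j))) := by
        have h8 := (hG.symm a'.j).1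
        simp only [h7] at h8
        simp only [St.F, St.F', map_sub, map_add, map_smul, h8, LinearEquiv.symm_apply_apply,
          smul_smul]
        module
      rw [e2, norm_neg]
      refine (hK0' _ _ _ _ _ hG.symm _).trans ?_
      have h9 : (K0' : ℝ) * ‖S.F (cv (D₁.r τ a.j a.c)) -
            (cv (D₂.r τ' a'.j a'.c) + t a • cv (D₂.z τ' a'.j))‖ ≤ K0' * (4 * K2 + 1) := by gcongr
      push_cast; nlinarith
    · have h8 := (h1.symm a'.i).1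
      have h9 : (nx a).σ.symm a'.i = a.i := by rw [← h2]; simp
      simp only [h9, h3] at h8
      show (nx a).L.symm (n • cv (D₂.z a'.τ a'.i) - (nx a).t) = _
      simp only [h4, h7, map_sub, map_smul, h8, smul_smul]
      module

theorem exists_sys [Finite T₁] [Finite T₂] (D₁ : Data T₁) (D₂ : Data T₂)
    (hA₁ : ∀ x, Bd x → ∀ α, ∃ α', Allowed D₁ D₂ x α α')
    (hA₂ : ∀ x, Bd x → ∀ α', ∃ α, Allowed D₁ D₂ x α α')
    (h0 : ∃ σ L lam, Good D₁ D₂ D₁.τ0 D₂.τ0 σ L lam) :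
    ∃ K Φ F Φ' F', Sys D₁ D₂ K Φ F ∧ Sys D₂ D₁ K Φ' F' ∧
      (∀ π, Valid D₁ π → Φ' (Φ π) = π ∧ ∀ x, F' (Φ π) (F π x) = x) ∧
      (∀ π, Valid D₂ π → Φ (Φ' π) = π ∧ ∀ x, F (Φ' π) (F' π x) = x) := by
  obtain ⟨K, hK⟩ := one_step D₁ D₂ hA₁ hA₂
  choose m m' nx H using hK
  obtain ⟨σ0, L0, lam0, h0⟩ := h0
  let G : List (Step T₁) → List (Step T₂) × St := fun π =>
    List.rec (([] : List (Step T₂)), (⟨σ0, L0, lam0, 0⟩ : St)) (fun a π p =>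
      (m (typ D₁ π) (entry π) (typ D₂ p.1) (entry p.1) p.2 a :: p.1,
        nx (typ D₁ π) (entry π) (typ D₂ p.1) (entry p.1) p.2 a)) π
  have G1 : ∀ a π, (G (a :: π)).1 =
      m (typ D₁ π) (entry π) (typ D₂ (G π).1) (entry (G π).1) (G π).2 a :: (G π).1 :=
    fun _ _ => rfl
  have G2 : ∀ a π, (G (a :: π)).2 =
      nx (typ D₁ π) (entry π) (typ D₂ (G π).1) (entry (G π).1) (G π).2 a := fun _ _ => rfl
  let G' : List (Step T₂) → List (Step T₁) := fun π' =>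
    List.rec ([] : List (Step T₁)) (fun a' π' π =>
      m' (typ D₁ π) (entry π) (typ D₂ π') (entry π') (G π).2 a' :: π) π'
  have G3 : ∀ a' π', G' (a' :: π') =
      m' (typ D₁ (G' π')) (entry (G' π')) (typ D₂ π') (entry π') (G (G' π')).2 a' :: G' π' :=
    fun _ _ => rfl
  have I1 : ∀ π, Valid D₁ π → Valid D₂ (G π).1 ∧
      Good D₁ D₂ (typ D₁ π) (typ D₂ (G π).1) (G π).2.σ (G π).2.L (G π).2.lam ∧
      G' (G π).1 = π := by
    intro π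
    induction π with
    | nil => intro _; exact ⟨trivial, h0, rfl⟩
    | cons a π ih =>
      intro hv
      obtain ⟨h1, h2, h3⟩ := ih hv.1
      obtain ⟨h4, h5, h6⟩ := (H _ (entry π) _ (entry (G π).1) _ h2).1 a hv.2
      rw [G1, G2, G3, h3, h5]
      exact ⟨⟨h1, h4⟩, h6, rfl⟩
  have I2 : ∀ π', Valid D₂ π' → Valid D₁ (G' π') ∧ (G (G' π')).1 = π' := by
    intro π'
    induction π' with
    | nil => intro _; exact ⟨trivial, rfl⟩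
    | cons a' π' ih =>
      intro hv
      obtain ⟨h1, h2⟩ := ih hv.1
      have h3 := (I1 _ h1).2.1
      rw [h2] at h3
      obtain ⟨h4, h5⟩ := (H _ (entry (G' π')) _ (entry π') _ h3).2.1 a' hv.2
      rw [G3, G1, h2, h5]
      exact ⟨⟨h1, h4⟩, rfl⟩
  refine ⟨K, fun π => (G π).1, fun π => (G π).2.F, G', fun π' => (G (G' π')).2.F', ?_, ?_, ?_, ?_⟩
  · intro π hv
    obtain ⟨h1, h2, h3⟩ := I1 π hv
    exact ⟨h1, _, fun a _ => G1 a π, (H _ (entry π) _ (entry (G π).1) _ h2).2.2.1⟩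
  · intro π' hv
    obtain ⟨h1, h2⟩ := I2 π' hv
    have h3 := (I1 _ h1).2.1
    rw [h2] at h3
    refine ⟨h1, _, fun a _ => G3 a π', ?_⟩
    have := (H _ (entry (G' π')) _ (entry π') _ h3).2.2.2
    simp only [G3, G2, h2]
    exact this
  · intro π hv
    obtain ⟨h1, h2, h3⟩ := I1 π hv
    refine ⟨h3, fun x => ?_⟩
    simp only [h3, St.F, St.F']
    simp
  · intro π' hv
    obtain ⟨h1, h2⟩ := I2 π' hv
    refine ⟨h2, fun x => ?_⟩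
    simp [St.F, St.F']

/-- The two tubular groups are quasi-isometric. -/
theorem qi_of_allowed [Finite T₁] [Finite T₂] (D₁ : Data T₁) (D₂ : Data T₂)
    (hA₁ : ∀ x, Bd x → ∀ α, ∃ α', Allowed D₁ D₂ x α α')
    (hA₂ : ∀ x, Bd x → ∀ α', ∃ α, Allowed D₁ D₂ x α α')
    (h0 : ∃ σ L lam, Good D₁ D₂ D₁.τ0 D₂.τ0 σ L lam) :
    ∃ (f : Gam D₁ → Gam D₂) (L C : ℕ),
      (∀ a b n, Near (gens D₁) n a b → Near (gens D₂) (L * n + C) (f a) (f b)) ∧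
      (∀ a b n, Near (gens D₂) n (f a) (f b) → Near (gens D₁) (L * n + C) a b) ∧
      (∀ y, ∃ x, Near (gens D₂) C (f x) y) := by
  obtain ⟨K, Φ, F, Φ', F', h1, h2, h3, h4⟩ := exists_sys D₁ D₂ hA₁ hA₂ h0
  obtain ⟨L₁, hL₁⟩ := fmap_lip h1
  obtain ⟨L₂, hL₂⟩ := fmap_lip h2
  obtain ⟨C₁, hC₁⟩ := fmap_inv h1 h2 h3
  obtain ⟨C₂, hC₂⟩ := fmap_inv h2 h1 h4
  refine ⟨fmap D₁ D₂ Φ F, L₁ + L₂, 2 * C₁ + C₂, ?_, ?_, ?_⟩
  · intro a b n h
    refine (lip_of_gen _ L₁ hL₁ n a b h).mono ?_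
    nlinarith [Nat.zero_le (L₂ * n)]
  · intro a b n h
    have := ((hC₁ a).symm.trans (lip_of_gen _ L₂ hL₂ n _ _ h)).trans (hC₁ b)
    refine this.mono ?_
    nlinarith [Nat.zero_le (L₁ * n)]
  · intro y
    exact ⟨_, (hC₂ y).mono (by omega)⟩

end Pool.Agent.H728Z.FBC
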