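import Pool.Agent.H728Z.FBC.Build

set_option autoImplicit false

namespace Pool.Agent.H728Z.FBC

/-- Slopes of the primitive directions. -/
def kk (τ : Bool) (i : Fin 3) : ℤ := if i = 0 then 0 else if i = 1 then (if τ then 3 else 1) else -1

/-- The group that is not virtually free-by-cyclic: two plane types. -/
def DG : Data Bool where
  τ0 := false
  z τ i := if τ = true ∧ i = 2 then (0, 2) else (1, kk τ i)
  q τ i v := if τ = true ∧ i = 2 then -2 * v.1 + v.2 % 2 else v.2 - kk τ i * v.1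
  r τ i c := if τ = true ∧ i = 2 then (-(c / 2), c % 2) else (0, c)
  ht τ i v := if τ = true ∧ i = 2 then v.2 / 2 else v.1
  A1 τ i v := by
    split_ifs
    · ext <;> simp <;> omega
    · ext <;> simp; ring
  A2q τ i c n := by
    split_ifs
    · simp; omega
    · simp; ring
  A2h τ i c n := by
    split_ifs
    · simp; omega
    · simp
  A3 τ i := by split_ifs <;> simp
  A4 τ i c := by
    split_ifs
    · simp only [detZ]; rw [abs_le]; omega
    · simp [detZ]
  A5 τ i := by split_ifs <;> simp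
  A6 τ := by cases τ <;> simp [detZ, kk]

/-- The free-by-cyclic group: one plane type. -/
def DH : Data Unit where
  τ0 := ()
  z _ i := (1, kk false i)
  q _ i v := v.2 - kk false i * v.1
  r _ _ c := (0, c)
  ht _ _ v := v.1
  A1 τ i v := by ext <;> simp; ring
  A2q τ i c n := by simp; ring
  A2h τ i c n := by simp
  A3 τ i := rfl
  A4 τ i c := by simp [detZ]
  A5 τ i := by simp
  A6 τ := by simp [detZ, kk]

/-- The linear map with prescribed values on a basis. -/
noncomputable def Lmap (u0 u1 w0 w1 : V) : V →ₗ[ℝ] V where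
  toFun x := (dt x u1 / dt u0 u1) • w0 + (dt u0 x / dt u0 u1) • w1
  map_add' x y := by
    simp only [dt, Prod.fst_add, Prod.snd_add]
    module
  map_smul' c x := by
    simp only [dt, Prod.smul_fst, Prod.smul_snd, smul_eq_mul, RingHom.id_apply]
    module

theorem Lmap_comp (u0 u1 w0 w1 : V) (hu : dt u0 u1 ≠ 0) (hw : dt w0 w1 ≠ 0) (x : V) :
    Lmap w0 w1 u0 u1 (Lmap u0 u1 w0 w1 x) = x := by
  have h1 : dt (Lmap u0 u1 w0 w1 x) w1 / dt w0 w1 = dt x u1 / dt u0 u1 := by
    rw [div_eq_iff hw]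
    simp only [Lmap, LinearMap.coe_mk, AddHom.coe_mk]
    generalize dt x u1 / dt u0 u1 = s
    generalize dt u0 x / dt u0 u1 = t
    simp only [dt, Prod.fst_add, Prod.snd_add, Prod.smul_fst, Prod.smul_snd, smul_eq_mul]
    ring
  have h2 : dt w0 (Lmap u0 u1 w0 w1 x) / dt w0 w1 = dt u0 x / dt u0 u1 := by
    rw [div_eq_iff hw]
    simp only [Lmap, LinearMap.coe_mk, AddHom.coe_mk]
    generalize dt x u1 / dt u0 u1 = s
    generalize dt u0 x / dt u0 u1 = t
    simp only [dt, Prod.fst_add, Prod.snd_add, Prod.smul_fst, Prod.smul_snd, smul_eq_mul]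
    ring
  show (dt (Lmap u0 u1 w0 w1 x) w1 / dt w0 w1) • u0 + (dt w0 (Lmap u0 u1 w0 w1 x) / dt w0 w1) • u1
    = x
  rw [h1, h2]
  ext
  · simp only [Prod.fst_add, Prod.smul_fst, smul_eq_mul]
    field_simp
    unfold dt; ring
  · simp only [Prod.snd_add, Prod.smul_snd, smul_eq_mul]
    field_simp
    unfold dt; ring

theorem exists_L (u0 u1 w0 w1 : V) (hu : dt u0 u1 ≠ 0) (hw : dt w0 w1 ≠ 0) :
    ∃ L : V ≃ₗ[ℝ] V, L u0 = w0 ∧ L u1 = w1 := by
  refine ⟨LinearEquiv.ofLinear (Lmap u0 u1 w0 w1) (Lmap w0 w1 u0 u1)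
    (LinearMap.ext (Lmap_comp w0 w1 u0 u1 hw hu)) (LinearMap.ext (Lmap_comp u0 u1 w0 w1 hu hw)),
    ?_, ?_⟩
  · show (dt u0 u1 / dt u0 u1) • w0 + (dt u0 u0 / dt u0 u1) • w1 = w0
    have : dt u0 u0 = 0 := by unfold dt; ring
    rw [div_self hu, this]; simp
  · show (dt u1 u1 / dt u0 u1) • w0 + (dt u0 u1 / dt u0 u1) • w1 = w1
    have : dt u1 u1 = 0 := by unfold dt; ring
    rw [div_self hu, this]; simp

theorem mkGood (σ : Equiv.Perm (Fin 3)) (lam : Fin 3 → ℝ) (hb : ∀ j, Bd (lam j))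
    (h : lam 2 • cv (DH.z () (σ 2)) =
      (-2 / 3 : ℝ) • (lam 0 • cv (DH.z () (σ 0))) + (2 / 3 : ℝ) • (lam 1 • cv (DH.z () (σ 1))))
    (hd : dt (cv (DH.z () (σ 0))) (cv (DH.z () (σ 1))) ≠ 0) :
    ∃ L, Good DG DH true () σ L lam := by
  obtain ⟨L, h0, h1⟩ := exists_L (cv (DG.z true 0)) (cv (DG.z true 1))
    (lam 0 • cv (DH.z () (σ 0))) (lam 1 • cv (DH.z () (σ 1))) (by simp [DG, dt, cv, kk]) (by
      have e : dt (lam 0 • cv (DH.z () (σ 0))) (lam 1 • cv (DH.z () (σ 1))) =
          lam 0 * lam 1 * dt (cv (DH.z () (σ 0))) (cv (DH.z () (σ 1))) := by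
        simp only [dt, Prod.smul_fst, Prod.smul_snd, smul_eq_mul]; ring
      rw [e]
      exact mul_ne_zero (mul_ne_zero (hb 0).ne (hb 1).ne) hd)
  refine ⟨L, fun j => ⟨?_, hb j⟩⟩
  fin_cases j
  · exact h0
  · exact h1
  · have e : cv (DG.z true 2) =
        (-2 / 3 : ℝ) • cv (DG.z true 0) + (2 / 3 : ℝ) • cv (DG.z true 1) := by
      ext <;> simp [DG, cv, kk] <;> norm_num
    show L (cv (DG.z true 2)) = lam 2 • cv (DH.z () (σ 2))
    rw [e, map_add, map_smul, map_smul, h0, h1, h]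

theorem good_false (x : ℝ) (hx : Bd x) :
    Good DG DH false () 1 (LinearEquiv.smulOfNeZero ℝ V x hx.ne) (fun _ => x) := by
  intro j
  refine ⟨?_, hx⟩
  have : DG.z false j = DH.z () j := by simp [DG, DH]
  rw [this]
  rfl

theorem bd_mul {x : ℝ} (c : ℝ) (h1 : 1 / 3 ≤ |c| * |x|) (h2 : |c| * |x| ≤ 3) : Bd (c * x) := by
  unfold Bd; rw [abs_mul]; exact ⟨h1, h2⟩

theorem allowed_true (x : ℝ) (σ : Equiv.Perm (Fin 3)) (c : Fin 3 → ℝ) (i : Fin 3) (hi : c i = 1)
    (hb : ∀ j, 1 / 3 ≤ |c j| * |x| ∧ |c j| * |x| ≤ 3)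
    (h : c 2 • cv (DH.z () (σ 2)) =
      (-2 / 3 : ℝ) • (c 0 • cv (DH.z () (σ 0))) + (2 / 3 : ℝ) • (c 1 • cv (DH.z () (σ 1))))
    (hd : dt (cv (DH.z () (σ 0))) (cv (DH.z () (σ 1))) ≠ 0) :
    ∃ α', Allowed DG DH x (true, i) α' := by
  obtain ⟨L, hL⟩ := mkGood σ (fun j => c j * x) (fun j => bd_mul _ (hb j).1 (hb j).2) (by
    have := congrArg (fun v => x • v) h
    simp only [smul_add, smul_smul] at this ⊢
    rw [mul_comm (c 2) x, this]
    module) hd
  exact ⟨((), σ i), σ, L, _, hL, rfl, by simp [hi]⟩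

theorem hA1 : ∀ x, Bd x → ∀ α, ∃ α', Allowed DG DH x α α' := by
  rintro x hx ⟨τ, i⟩
  cases τ
  · exact ⟨((), i), 1, _, _, good_false x hx, rfl, rfl⟩
  obtain ⟨h1, h2⟩ := hx
  rcases le_total 1 |x| with h | h
  · fin_cases i
    · refine allowed_true x 1 ![1, 1 / 2, -1 / 3] 0 rfl ?_ ?_ ?_
      · intro j; fin_cases j <;> norm_num [abs_of_pos, abs_of_neg] <;> constructor <;> linarith
      · ext <;> simp [DH, cv, kk] <;> norm_num
      · simp [DH, cv, kk, dt]
    · refine allowed_true x (Equiv.swap 0 1) ![1 / 2, 1, 1 / 3] 1 rfl ?_ ?_ ?_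
      · intro j; fin_cases j <;> norm_num [abs_of_pos, abs_of_neg] <;> constructor <;> linarith
      · ext <;> simp [DH, cv, kk, Equiv.swap_apply_def] <;> norm_num
      · simp [DH, cv, kk, dt, Equiv.swap_apply_def]
    · refine allowed_true x (Equiv.swap 0 2) ![-3 / 4, 3 / 4, 1] 2 rfl ?_ ?_ ?_
      · intro j; fin_cases j <;> norm_num [abs_of_pos, abs_of_neg] <;> constructor <;> linarith
      · ext <;> simp [DH, cv, kk, Equiv.swap_apply_def] <;> norm_num
      · simp [DH, cv, kk, dt, Equiv.swap_apply_def]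
  · fin_cases i
    · refine allowed_true x (Equiv.swap 0 2) ![1, -1, -4 / 3] 0 rfl ?_ ?_ ?_
      · intro j; fin_cases j <;> norm_num [abs_of_pos, abs_of_neg] <;> constructor <;> linarith
      · ext <;> simp [DH, cv, kk, Equiv.swap_apply_def] <;> norm_num
      · simp [DH, cv, kk, dt, Equiv.swap_apply_def]
    · refine allowed_true x (Equiv.swap 0 2) ![-1, 1, 4 / 3] 1 rfl ?_ ?_ ?_
      · intro j; fin_cases j <;> norm_num [abs_of_pos, abs_of_neg] <;> constructor <;> linarith
      · ext <;> simp [DH, cv, kk, Equiv.swap_apply_def] <;> norm_num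
      · simp [DH, cv, kk, dt, Equiv.swap_apply_def]
    · refine allowed_true x 1 ![-3, -3 / 2, 1] 2 rfl ?_ ?_ ?_
      · intro j; fin_cases j <;> norm_num [abs_of_pos, abs_of_neg] <;> constructor <;> linarith
      · ext <;> simp [DH, cv, kk] <;> norm_num
      · simp [DH, cv, kk, dt]

theorem hA2 : ∀ x, Bd x → ∀ α', ∃ α, Allowed DG DH x α α' := by
  rintro x hx ⟨τ, i⟩
  exact ⟨(false, i), 1, _, _, good_false x hx, rfl, rfl⟩

theorem h00 : ∃ σ L lam, Good DG DH DG.τ0 DH.τ0 σ L lam :=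
  ⟨1, _, _, good_false 1 ⟨by norm_num, by norm_num⟩⟩

/-! The group `Gam DH` is free-by-cyclic. -/

abbrev F5 := FreeGroup (Fin 5)

open FreeGroup in
/-- The monodromy. -/
def th : MulAut F5 :=
  MonoidHom.toMulEquiv
    (FreeGroup.lift ![of 0, of 1, of 2, of 3 * of 2, of 4 * (of 2)⁻¹])
    (FreeGroup.lift ![of 0, of 1, of 2, of 3 * (of 2)⁻¹, of 4 * of 2])
    (by ext i; fin_cases i <;> simp) (by ext i; fin_cases i <;> simp)

/-- The semidirect product. -/
abbrev SD := F5 ⋊[zpowersHom (MulAut F5) th] Multiplicative ℤ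

open SemidirectProduct FreeGroup in
/-- Images of the generators in the semidirect product. -/
def toSDg : Gen Unit → SD
  | Gen.h b => inl (if b then of 1 else of 0)
  | Gen.z => inr (Multiplicative.ofAdd 1)
  | Gen.a _ => inr (Multiplicative.ofAdd 1)
  | Gen.b _ => inl (of 2)
  | Gen.e _ i => if i = 0 then 1 else if i = 1 then inl (of 3) else inl (of 4)

theorem th_of (i : Fin 5) : th (FreeGroup.of i) =
    ![FreeGroup.of 0, FreeGroup.of 1, FreeGroup.of 2, FreeGroup.of 3 * FreeGroup.of 2,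
      FreeGroup.of 4 * (FreeGroup.of 2)⁻¹] i := by
  simp [th]

open SemidirectProduct in
theorem inr_inl (x : F5) : (inr (Multiplicative.ofAdd 1) : SD) * inl x =
    inl (th x) * inr (Multiplicative.ofAdd 1) := by
  have := inl_aut (φ := zpowersHom (MulAut F5) th) (Multiplicative.ofAdd 1) x
  simp only [zpowersHom_apply, toAdd_ofAdd, zpow_one] at this
  rw [this, map_inv]
  simp

theorem zH0 (τ : Unit) : DH.z τ 0 = (1, 0) := rfl
theorem zH1 (τ : Unit) : DH.z τ 1 = (1, 1) := rfl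
theorem zH2 (τ : Unit) : DH.z τ 2 = (1, -1) := rfl

theorem toSD_rels : ∀ w ∈ rels DH, FreeGroup.lift toSDg w = 1 := by
  rintro w (⟨b, rfl⟩ | ⟨τ, rfl⟩ | ⟨τ, rfl⟩ | ⟨τ, i, rfl⟩)
  · simp only [map_mul, map_inv, FreeGroup.lift_apply_of, toSDg]
    rw [inr_inl]
    cases b <;> simp [th_of]
  · simp only [map_mul, map_inv, FreeGroup.lift_apply_of, toSDg]
    rw [inr_inl]
    simp [th_of]
  · simp [toSDg]
  · simp only [map_mul, map_inv, map_zpow, FreeGroup.lift_apply_of, toSDg]
    have t2 : th (FreeGroup.of 2) = FreeGroup.of 2 := th_of 2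
    have t3 : th (FreeGroup.of 3) = FreeGroup.of 3 * FreeGroup.of 2 := th_of 3
    have t4 : th (FreeGroup.of 4) = FreeGroup.of 4 * (FreeGroup.of 2)⁻¹ := th_of 4
    have h2 := inr_inl (FreeGroup.of 2)
    have h3 := inr_inl (FreeGroup.of 3)
    have h4 := inr_inl (FreeGroup.of 4)
    have h2' := inr_inl (FreeGroup.of 2)⁻¹
    simp only [t2, t3, t4, map_inv, map_mul] at h2 h3 h4 h2'
    rw [mul_inv_eq_one, mul_assoc]
    have hi : i = 0 ∨ i = 1 ∨ i = 2 := by fin_cases i <;> simp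
    rcases hi with rfl | rfl | rfl
    · simp [zH0]
    · simp only [zH1, Fin.isValue, one_ne_zero, if_false, if_true, zpow_one]
      rw [h2, h3]
      simp [mul_assoc]
    · simp only [zH2, Fin.isValue, Fin.reduceEq, if_false, zpow_one, zpow_neg]
      rw [h2', h4]
      simp [mul_assoc]

/-- The homomorphism to the semidirect product. -/
def toSD : Gam DH →* SD := PresentedGroup.toGroup toSD_rels

theorem toSD_gn (y : Gen Unit) : toSD (gn DH y) = toSDg y := PresentedGroup.toGroup.of _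

/-- The inclusion of the free group. -/
def jj : F5 →* Gam DH :=
  FreeGroup.lift ![gn DH (Gen.h false), gn DH (Gen.h true), gn DH (Gen.b ()), ge DH () 1,
    ge DH () 2]

theorem toSD_jj (x : F5) : toSD (jj x) = SemidirectProduct.inl x := by
  have : toSD.comp jj = SemidirectProduct.inl := by
    apply FreeGroup.ext_hom
    intro i
    fin_cases i <;> simp [jj, ge, toSD_gn, toSDg]
  exact DFunLike.congr_fun this x

theorem gz_eq_a : gz DH = gn DH (Gen.a ()) := by
  have := conj_e DH () 0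
  rw [ge_zero] at this
  simpa [pl, zH0] using this

theorem jj_th (x : F5) : jj (th x) = gz DH * jj x * (gz DH)⁻¹ := by
  have : jj.comp th.toMonoidHom = (MulAut.conj (gz DH)).toMonoidHom.comp jj := by
    apply FreeGroup.ext_hom
    intro i
    have hb : Commute (gz DH) (gn DH (Gen.b ())) := by rw [gz_eq_a]; exact comm_ab DH ()
    have h1 := conj_e DH () 1
    have h2 := conj_e DH () 2
    have e1 : pl DH () (DH.z () 1) = gz DH * gn DH (Gen.b ()) := by simp [pl, zH1, gz_eq_a]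
    have e2 : pl DH () (DH.z () 2) = gz DH * (gn DH (Gen.b ()))⁻¹ := by simp [pl, zH2, gz_eq_a]
    rw [e1, hb.eq, mul_assoc, inv_mul_eq_iff_eq_mul] at h1
    rw [e2, hb.inv_right.eq, mul_assoc, inv_mul_eq_iff_eq_mul] at h2
    fin_cases i
    · simp [jj, th_of, (comm_zh DH false).eq]
    · simp [jj, th_of, (comm_zh DH true).eq]
    · simp [jj, th_of, hb.eq]
    · simp [jj, th_of, h1, mul_assoc]
    · simp [jj, th_of, h2, mul_assoc]
  exact DFunLike.congr_fun this x

theorem jj_zpow (n : ℤ) : ∀ x : F5, jj ((th ^ n) x) = gz DH ^ n * jj x * (gz DH ^ n)⁻¹ := by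
  induction n using Int.induction_on with
  | zero => simp
  | succ n ih =>
    intro x
    rw [zpow_add_one, MulAut.mul_apply, ih, jj_th, zpow_add_one]; group
  | pred n ih =>
    intro x
    have := jj_th (th⁻¹ x)
    rw [MulAut.apply_inv_self] at this
    rw [zpow_sub_one, MulAut.mul_apply, ih, this, zpow_sub_one]; group

/-- The inverse homomorphism. -/
def ofSD : SD →* Gam DH :=
  SemidirectProduct.lift jj (zpowersHom _ (gz DH)) (fun g => by
    apply MonoidHom.ext
    intro x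
    exact jj_zpow g.toAdd x)

theorem ofSD_toSD (g : Gam DH) : ofSD (toSD g) = g := by
  have : ofSD.comp toSD = MonoidHom.id _ := by
    apply PresentedGroup.ext
    intro y
    show ofSD (toSD (gn DH y)) = gn DH y
    rw [toSD_gn]
    cases y with
    | h b => cases b <;> simp [toSDg, ofSD, jj]
    | z => simp [toSDg, ofSD, gz]
    | a τ => simp [toSDg, ofSD, gz_eq_a]
    | b τ => simp [toSDg, ofSD, jj]
    | e τ i =>
      fin_cases i
      · simpa [toSDg, ge] using (ge_zero DH ()).symm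
      · simp [toSDg, ofSD, jj, ge]
      · simp [toSDg, ofSD, jj, ge]
  exact DFunLike.congr_fun this g

theorem H_fbc : ∃ φ : Gam DH →* Multiplicative ℤ, Function.Surjective φ ∧
    IsFreeGroup ↥φ.ker ∧ Group.FG ↥φ.ker := by
  have hk : (SemidirectProduct.rightHom.comp toSD).ker = jj.range := by
    ext g
    constructor
    · intro hg
      refine ⟨(toSD g).left, ?_⟩
      have h1 : (toSD g).right = 1 := hg
      have h2 := SemidirectProduct.inl_left_mul_inr_right (toSD g)
      rw [h1, map_one, mul_one] at h2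
      conv_rhs => rw [← ofSD_toSD g, ← h2]
      simp [ofSD]
    · rintro ⟨x, rfl⟩
      simp [MonoidHom.mem_ker, toSD_jj]
  have hinj : Function.Injective jj := by
    intro x y h
    have := congrArg toSD h
    rw [toSD_jj, toSD_jj] at this
    exact SemidirectProduct.inl_injective this
  refine ⟨SemidirectProduct.rightHom.comp toSD, ?_, ?_, ?_⟩
  · intro n
    refine ⟨gz DH ^ n.toAdd, ?_⟩
    simp only [MonoidHom.comp_apply, map_zpow, gz, toSD_gn, toSDg, SemidirectProduct.rightHom_inr]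
    apply Multiplicative.toAdd.injective
    simp
  · rw [hk]; exact IsFreeGroup.ofMulEquiv (MonoidHom.ofInjective hinj)
  · rw [hk]; infer_instance

/-! The group `Gam DG` is not virtually free-by-cyclic. -/

theorem free_comm {A : Type} [Group A] [IsFreeGroup A] (x y : A) (h : Commute x y) :
    ∃ i j : ℤ, (i ≠ 0 ∨ j ≠ 0) ∧ x ^ i = y ^ j := by
  classical
  let B := Subgroup.closure ({x, y} : Set A)
  have hB : IsMulCommutative B := Subgroup.isMulCommutative_closure (by
    rintro a (rfl | rfl) b (rfl | rfl)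
    · rfl
    · exact h.eq
    · exact h.eq.symm
    · rfl)
  have hs : ∀ a b : IsFreeGroup.Generators B, a = b := by
    intro a b
    by_contra hab
    let f : B →* Equiv.Perm (Fin 3) :=
      IsFreeGroup.lift fun c => if c = a then Equiv.swap 0 1 else Equiv.swap 1 2
    have h1 := congrArg f (hB.is_comm.comm (IsFreeGroup.of a) (IsFreeGroup.of b))
    simp only [f, map_mul, IsFreeGroup.lift_of, if_true, if_neg (Ne.symm hab)] at h1
    exact absurd h1 (by decide)
  have hc : ∃ g : B, ∀ u : B, ∃ n : ℤ, u = g ^ n := by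
    have key : ∀ g : B, (∀ a, IsFreeGroup.of a = g) → ∀ u : B, ∃ n : ℤ, u = g ^ n := by
      intro g hg u
      obtain ⟨w, rfl⟩ := (IsFreeGroup.mulEquiv B).surjective u
      induction w using FreeGroup.induction_on with
      | C1 => exact ⟨0, by simp⟩
      | of a => exact ⟨1, by rw [zpow_one]; exact hg a⟩
      | inv_of a ih => obtain ⟨n, hn⟩ := ih; exact ⟨-n, by rw [map_inv, hn, zpow_neg]⟩
      | mul a b ha hb =>
        obtain ⟨n, hn⟩ := ha
        obtain ⟨m, hm⟩ := hb
        exact ⟨n + m, by rw [map_mul, hn, hm, zpow_add]⟩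
    by_cases hne : Nonempty (IsFreeGroup.Generators B)
    · obtain ⟨a⟩ := hne
      exact ⟨IsFreeGroup.of a, key _ fun b => by rw [hs b a]⟩
    · exact ⟨1, key _ fun b => absurd ⟨b⟩ hne⟩
  obtain ⟨g, hg⟩ := hc
  obtain ⟨m, hm⟩ := hg ⟨x, Subgroup.subset_closure (by simp)⟩
  obtain ⟨n, hn⟩ := hg ⟨y, Subgroup.subset_closure (by simp)⟩
  have hx : x = (g : A) ^ m := by simpa using congrArg Subtype.val hm
  have hy : y = (g : A) ^ n := by simpa using congrArg Subtype.val hn
  by_cases hm0 : m = 0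
  · exact ⟨1, 0, Or.inl one_ne_zero, by simp [hx, hm0]⟩
  · exact ⟨n, m, Or.inr hm0, by rw [hx, hy, ← zpow_mul, ← zpow_mul, mul_comm]⟩

theorem G_not : ¬ ∃ K : Subgroup (Gam DG), K.FiniteIndex ∧
    ∃ ψ : ↥K →* Multiplicative ℤ, Function.Surjective ψ ∧
      IsFreeGroup ↥ψ.ker ∧ Group.FG ↥ψ.ker := by
  rintro ⟨K, hK, ψ, -, hfree, -⟩
  set M := K.normalCore.index with hM
  have hM0 : M ≠ 0 := Subgroup.FiniteIndex.index_ne_zero
  have hmem : ∀ x : Gam DG, x ^ M ∈ K := fun x =>
    K.normalCore_le (Subgroup.pow_index_mem K.normalCore x)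
  let t : Gam DG → ℤ := fun x => (ψ ⟨x ^ M, hmem x⟩).toAdd
  have hadd : ∀ x y, Commute x y → t (x * y) = t x + t y := by
    intro x y h
    have : (⟨(x * y) ^ M, hmem _⟩ : K) = ⟨x ^ M, hmem x⟩ * ⟨y ^ M, hmem y⟩ :=
      Subtype.ext (h.mul_pow M)
    simp only [t, this, map_mul, toAdd_mul]
  have hpl : ∀ (g : Gam DG) v w, t (g * pl DG true (v + w) * g⁻¹) =
      t (g * pl DG true v * g⁻¹) + t (g * pl DG true w * g⁻¹) := by
    intro g v w
    rw [← hadd]
    · congr 1; rw [pl_add]; group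
    · have e : ∀ v w, g * pl DG true v * g⁻¹ * (g * pl DG true w * g⁻¹)
          = g * pl DG true (v + w) * g⁻¹ := by intro v w; rw [pl_add]; group
      show _ = _
      rw [e, e, add_comm]
  have hconj : ∀ (g : Gam DG) τ i, g * pl DG τ (DG.z τ i) * g⁻¹ =
      (g * (ge DG τ i)⁻¹) * gz DG * (g * (ge DG τ i)⁻¹)⁻¹ := by
    intro g τ i; rw [← conj_e]; group
  have hdiv : ∀ n : ℕ, ∀ g : Gam DG, (2 : ℤ) ^ n ∣ t (g * gz DG * g⁻¹) := by
    intro n
    induction n with
    | zero => simp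
    | succ n ih =>
      intro g
      set h := g * ge DG true 2 with hh
      have e0 := hconj h true 0
      have e1 := hconj h true 1
      have e2 := hconj h true 2
      rw [hh, mul_inv_cancel_right, ← hh] at e2
      have z0 : DG.z true 0 = (1, 0) := by simp [DG, kk]
      have z1 : DG.z true 1 = (1, 0) + ((0, 1) + ((0, 1) + (0, 1))) := by simp [DG, kk]
      have z2 : DG.z true 2 = (0, 1) + (0, 1) := by simp [DG]
      have i0 := ih (h * (ge DG true 0)⁻¹)
      have i1 := ih (h * (ge DG true 1)⁻¹)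
      rw [← e0, z0] at i0
      rw [← e1, z1, hpl, hpl, hpl] at i1
      rw [← e2, z2, hpl]
      have i2 := (Int.dvd_add_right i0).mp i1
      have i3 : (2 : ℤ) ^ n ∣ 3 * t (h * pl DG true (0, 1) * h⁻¹) := by
        convert i2 using 1; ring
      have i4 : (2 : ℤ) ^ n ∣ t (h * pl DG true (0, 1) * h⁻¹) :=
        (IsCoprime.pow_left (by norm_num [Int.isCoprime_iff_gcd_eq_one])).dvd_of_dvd_mul_left i3
      rw [pow_succ, ← mul_two]
      exact mul_dvd_mul_right i4 2
  have hzero : ∀ g : Gam DG, t (g * gz DG * g⁻¹) = 0 := by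
    intro g
    refine Int.eq_zero_of_dvd_of_natAbs_lt_natAbs (hdiv (t (g * gz DG * g⁻¹)).natAbs g) ?_
    rw [Int.natAbs_pow]
    exact Nat.lt_two_pow_self
  have hker : ∀ i, (⟨pl DG false (DG.z false i) ^ M, hmem _⟩ : K) ∈ ψ.ker := by
    intro i
    have := hzero (1 * (ge DG false i)⁻¹)
    rw [← hconj, one_mul, inv_one, mul_one] at this
    exact Multiplicative.toAdd.injective this
  obtain ⟨i, j, hij, e⟩ := free_comm (⟨_, hker 0⟩ : ψ.ker) ⟨_, hker 1⟩ (by
    apply Subtype.ext; apply Subtype.ext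
    show _ * _ = _ * _
    apply Commute.pow_pow
    show _ = _
    rw [← pl_add, ← pl_add, add_comm])
  have e2 : (pl DG false (DG.z false 0) ^ M) ^ i = (pl DG false (DG.z false 1) ^ M) ^ j := by
    simpa using congrArg (fun x : ψ.ker => (x.1.1 : Gam DG)) e
  rw [← zpow_natCast, ← zpow_natCast, ← pl_zsmul, ← pl_zsmul, ← pl_zsmul, ← pl_zsmul,
    ← mul_inv_eq_one, ← pl_neg, ← pl_add] at e2
  have e3 := pl_inj DG _ e2
  simp only [DG, kk, Prod.ext_iff] at e3
  simp at e3
  rcases e3 with ⟨h1, h2 | h2⟩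
  · subst h2
    simp at h1
    rcases h1 with h1 | h1
    · simp [h1] at hij
    · exact hM0 h1
  · exact hM0 h2

end Pool.Agent.H728Z.FBC
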