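import Pool.Agent.H728Z.FBC.Match

set_option autoImplicit false

namespace Pool.Agent.H728Z.FBC

/-- Determinant of two integer vectors. -/
def detZ (v w : ℤ × ℤ) : ℤ := v.1 * w.2 - v.2 * w.1

/-- Data of a tubular group with one hub: plane types, three vectors in each plane, and coset
coordinates. -/
structure Data (T : Type) where
  τ0 : T
  z : T → Fin 3 → ℤ × ℤ
  q : T → Fin 3 → ℤ × ℤ → ℤ
  r : T → Fin 3 → ℤ → ℤ × ℤ
  ht : T → Fin 3 → ℤ × ℤ → ℤ
  A1 : ∀ τ i v, r τ i (q τ i v) + ht τ i v • z τ i = v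
  A2q : ∀ τ i c (n : ℤ), q τ i (r τ i c + n • z τ i) = c
  A2h : ∀ τ i c (n : ℤ), ht τ i (r τ i c + n • z τ i) = n
  A3 : ∀ τ i, r τ i 0 = 0
  A4 : ∀ τ i c, |c - detZ (z τ i) (r τ i c)| ≤ 1
  A5 : ∀ τ i, z τ i ≠ 0
  A6 : ∀ τ, detZ (z τ 0) (z τ 1) ≠ 0

/-- Generators. -/
inductive Gen (T : Type) : Type
  | h (b : Bool) : Gen T
  | z : Gen T
  | a (τ : T) : Gen T
  | b (τ : T) : Gen T
  | e (τ : T) (i : Fin 3) : Gen T

variable {T : Type}

open FreeGroup in
/-- Relators. -/
def rels (D : Data T) : Set (FreeGroup (Gen T)) :=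
  {w | (∃ b, w = of Gen.z * of (Gen.h b) * (of Gen.z)⁻¹ * (of (Gen.h b))⁻¹) ∨
    (∃ τ, w = of (Gen.a τ) * of (Gen.b τ) * (of (Gen.a τ))⁻¹ * (of (Gen.b τ))⁻¹) ∨
    (∃ τ, w = of (Gen.e τ 0)) ∨
    (∃ τ i, w = (of (Gen.e τ i))⁻¹ * of Gen.z * of (Gen.e τ i) *
      (of (Gen.a τ) ^ (D.z τ i).1 * of (Gen.b τ) ^ (D.z τ i).2)⁻¹)}

/-- The tubular group. -/
abbrev Gam (D : Data T) : Type := PresentedGroup (rels D)

variable (D : Data T)

def gn (x : Gen T) : Gam D := PresentedGroup.of x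
def gz : Gam D := gn D Gen.z
def ge (τ : T) (i : Fin 3) : Gam D := gn D (Gen.e τ i)
def io : Lam →* Gam D := FreeGroup.lift fun b => gn D (Gen.h b)
def pl (τ : T) (w : ℤ × ℤ) : Gam D := gn D (Gen.a τ) ^ w.1 * gn D (Gen.b τ) ^ w.2

theorem rel_one {w : FreeGroup (Gen T)} (h : w ∈ rels D) : PresentedGroup.mk (rels D) w = 1 :=
  PresentedGroup.one_of_mem h

theorem mk_of (x : Gen T) : PresentedGroup.mk (rels D) (FreeGroup.of x) = gn D x := rfl

theorem comm_zh (b : Bool) : Commute (gz D) (gn D (Gen.h b)) := by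
  have := rel_one D (Or.inl ⟨b, rfl⟩)
  simp only [map_mul, map_inv, mk_of] at this
  rw [mul_inv_eq_one, mul_inv_eq_iff_eq_mul] at this
  exact this

theorem comm_ab (τ : T) : Commute (gn D (Gen.a τ)) (gn D (Gen.b τ)) := by
  have := rel_one D (Or.inr (Or.inl ⟨τ, rfl⟩))
  simp only [map_mul, map_inv, mk_of] at this
  rw [mul_inv_eq_one, mul_inv_eq_iff_eq_mul] at this
  exact this

theorem ge_zero (τ : T) : ge D τ 0 = 1 := rel_one D (Or.inr (Or.inr (Or.inl ⟨τ, rfl⟩)))

theorem conj_e (τ : T) (i : Fin 3) : (ge D τ i)⁻¹ * gz D * ge D τ i = pl D τ (D.z τ i) := by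
  have := rel_one D (Or.inr (Or.inr (Or.inr ⟨τ, i, rfl⟩)))
  simp only [map_mul, map_inv, map_zpow, mk_of] at this
  rw [mul_inv_eq_one] at this
  exact this

theorem comm_zio (l : Lam) : Commute (gz D) (io D l) := by
  induction l using FreeGroup.induction_on with
  | C1 => simp
  | of b => simpa [io] using comm_zh D b
  | inv_of b ih => rw [map_inv]; exact ih.inv_right
  | mul x y hx hy => rw [map_mul]; exact hx.mul_right hy

theorem pl_zero (τ : T) : pl D τ 0 = 1 := by simp [pl]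

theorem pl_add (τ : T) (v w : ℤ × ℤ) : pl D τ (v + w) = pl D τ v * pl D τ w := by
  unfold pl
  simp only [Prod.fst_add, Prod.snd_add, zpow_add]
  have := ((comm_ab D τ).zpow_zpow w.1 v.2).eq
  rw [mul_assoc, mul_assoc, ← mul_assoc (gn D (Gen.a τ) ^ w.1), this]
  simp only [mul_assoc]

/-- The plane as a homomorphism. -/
def plHom (τ : T) : Multiplicative (ℤ × ℤ) →* Gam D where
  toFun w := pl D τ w.toAdd
  map_one' := pl_zero D τ
  map_mul' _ _ := pl_add D τ _ _

theorem pl_zsmul (τ : T) (n : ℤ) (w : ℤ × ℤ) : pl D τ (n • w) = pl D τ w ^ n := by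
  have := map_zpow (plHom D τ) (Multiplicative.ofAdd w) n
  exact this

theorem pl_neg (τ : T) (w : ℤ × ℤ) : pl D τ (-w) = (pl D τ w)⁻¹ := by
  have := pl_zsmul D τ (-1) w
  simpa using this

theorem gz_ge (τ : T) (i : Fin 3) (n : ℤ) :
    gz D ^ n * ge D τ i = ge D τ i * pl D τ (n • D.z τ i) := by
  rw [pl_zsmul, ← conj_e]
  have : (ge D τ i)⁻¹ * gz D * ge D τ i = (ge D τ i)⁻¹ * gz D * (ge D τ i)⁻¹⁻¹ := by simp
  rw [this, conj_zpow]
  group

/-- Type of the plane with a given address. -/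
def typ : List (Step T) → T
  | [] => D.τ0
  | a :: _ => a.τ

/-- Direction through which a plane was entered. -/
def entry : List (Step T) → Option (Fin 3)
  | [] => none
  | a :: _ => some a.i

/-- Reduced addresses. -/
def Valid : List (Step T) → Prop
  | [] => True
  | a :: π => Valid π ∧ VS (typ D π) (entry π) a

/-- The group element of an address. -/
def prodP : List (Step T) → Gam D
  | [] => 1
  | a :: π => prodP π * pl D (typ D π) (D.r (typ D π) a.j a.c) * (ge D (typ D π) a.j)⁻¹ *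
      io D a.l * ge D a.τ a.i

/-- Hub points. -/
@[ext] structure HP where
  π : List (Step T)
  j : Fin 3
  c : ℤ
  l : Lam
  n : ℤ
  hv : Valid D π
  hc : ¬ (entry π = some j ∧ c = 0)

/-- Plane points. -/
@[ext] structure PP (τ : T) where
  π : List (Step T)
  v : ℤ × ℤ
  hv : Valid D π
  hτ : typ D π = τ

open Classical in
noncomputable def toPlane (τ : T) (i : Fin 3) (x : HP D) : PP D τ :=
  if h : x.l = 1 ∧ τ = typ D x.π ∧ i = x.j then
    ⟨x.π, D.r τ i x.c + x.n • D.z τ i, x.hv, h.2.1.symm⟩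
  else ⟨⟨x.j, x.c, x.l, τ, i⟩ :: x.π, x.n • D.z τ i, ⟨x.hv, x.hc, h⟩, rfl⟩

def toHub (τ : T) (i : Fin 3) : PP D τ → HP D
  | ⟨[], v, hv, _⟩ => ⟨[], i, D.q τ i v, 1, D.ht τ i v, hv, by simp [entry]⟩
  | ⟨a :: π, v, hv, _⟩ =>
    if h : a.i = i ∧ D.q τ i v = 0 then ⟨π, a.j, a.c, a.l, D.ht τ i v, hv.1, hv.2.1⟩
    else ⟨a :: π, i, D.q τ i v, 1, D.ht τ i v, hv, by simpa [entry] using h⟩

theorem q_smul (τ : T) (i : Fin 3) (n : ℤ) : D.q τ i (n • D.z τ i) = 0 := by
  have := D.A2q τ i 0 n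
  rwa [D.A3, zero_add] at this

theorem ht_smul (τ : T) (i : Fin 3) (n : ℤ) : D.ht τ i (n • D.z τ i) = n := by
  have := D.A2h τ i 0 n
  rwa [D.A3, zero_add] at this

theorem toPlane_pos (τ : T) (i : Fin 3) (x : HP D) (h : x.l = 1 ∧ τ = typ D x.π ∧ i = x.j) :
    toPlane D τ i x = ⟨x.π, D.r τ i x.c + x.n • D.z τ i, x.hv, h.2.1.symm⟩ := dif_pos h

theorem toPlane_neg (τ : T) (i : Fin 3) (x : HP D) (h : ¬ (x.l = 1 ∧ τ = typ D x.π ∧ i = x.j)) :
    toPlane D τ i x = ⟨⟨x.j, x.c, x.l, τ, i⟩ :: x.π, x.n • D.z τ i, ⟨x.hv, x.hc, h⟩, rfl⟩ :=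
  dif_neg h

/-- Crossing a tube. -/
noncomputable def E (τ : T) (i : Fin 3) : HP D ≃ PP D τ where
  toFun := toPlane D τ i
  invFun := toHub D τ i
  left_inv x := by
    by_cases h : x.l = 1 ∧ τ = typ D x.π ∧ i = x.j
    · rw [toPlane_pos D τ i x h]
      obtain ⟨π, j, c, l, n, hv, hc⟩ := x
      obtain ⟨h1, h2, h3⟩ := h
      simp only at h1 h2 h3
      subst h1 h3
      rcases π with _ | ⟨a, π⟩
      · simp only [toHub, D.A2q, D.A2h]
      · simp only [toHub, D.A2q, D.A2h]
        rw [dif_neg (by simpa [entry] using hc)]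
    · rw [toPlane_neg D τ i x h]
      simp only [toHub, q_smul, ht_smul, and_self, dif_pos]
  right_inv p := by
    obtain ⟨π, v, hv, hτ⟩ := p
    rcases π with _ | ⟨a, π⟩
    · simp only [toHub]
      rw [toPlane_pos D τ i _ ⟨rfl, hτ.symm, rfl⟩]
      simp only [D.A1]
    · simp only [toHub]
      split_ifs with h
      · rw [toPlane_neg]
        · obtain ⟨h1, h2⟩ := h
          have h3 := D.A1 τ i v
          rw [h2, D.A3, zero_add] at h3
          simp only [typ] at hτ
          ext1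
          · simp only [List.cons.injEq, and_true]
            exact Step.ext rfl rfl rfl hτ.symm h1.symm
          · exact h3
        · have := hv.2.2
          simp only [typ] at hτ
          rw [hτ, h.1] at this
          exact this
      · rw [toPlane_pos D τ i _ ⟨rfl, hτ.symm, rfl⟩]
        simp only [D.A1]

/-- Translation of plane points. -/
def tr (τ : T) (w : ℤ × ℤ) : Equiv.Perm (PP D τ) where
  toFun p := ⟨p.π, p.v + w, p.hv, p.hτ⟩
  invFun p := ⟨p.π, p.v - w, p.hv, p.hτ⟩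
  left_inv p := by simp
  right_inv p := by simp

/-- Moving along the fibre of a hub. -/
def addN (n : ℤ) : Equiv.Perm (HP D) where
  toFun x := ⟨x.π, x.j, x.c, x.l, x.n + n, x.hv, x.hc⟩
  invFun x := ⟨x.π, x.j, x.c, x.l, x.n - n, x.hv, x.hc⟩
  left_inv p := by simp
  right_inv p := by simp

/-- Moving in the base of a hub. -/
def mulL (l : Lam) : Equiv.Perm (HP D) where
  toFun x := ⟨x.π, x.j, x.c, x.l * l, x.n, x.hv, x.hc⟩
  invFun x := ⟨x.π, x.j, x.c, x.l * l⁻¹, x.n, x.hv, x.hc⟩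
  left_inv p := by simp
  right_inv p := by simp

theorem E_addN (τ : T) (i : Fin 3) (n : ℤ) (x : HP D) :
    E D τ i (addN D n x) = tr D τ (n • D.z τ i) (E D τ i x) := by
  show toPlane D τ i (addN D n x) = tr D τ (n • D.z τ i) (toPlane D τ i x)
  by_cases h : x.l = 1 ∧ τ = typ D x.π ∧ i = x.j
  · rw [toPlane_pos D τ i x h, toPlane_pos D τ i (addN D n x) h]
    ext1
    · rfl
    · show D.r τ i x.c + (x.n + n) • D.z τ i = D.r τ i x.c + x.n • D.z τ i + n • D.z τ i
      rw [add_smul, add_assoc]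
  · rw [toPlane_neg D τ i x h, toPlane_neg D τ i (addN D n x) h]
    ext1
    · rfl
    · show (x.n + n) • D.z τ i = x.n • D.z τ i + n • D.z τ i
      rw [add_smul]

open MulOpposite

/-- Plane translations acting on hub points. -/
noncomputable def trHom (τ : T) : Multiplicative (ℤ × ℤ) →* (Equiv.Perm (HP D))ᵐᵒᵖ where
  toFun w := op (((E D τ 0).trans (tr D τ w.toAdd)).trans (E D τ 0).symm)
  map_one' := by
    apply unop_injective
    ext1 x
    have : tr D τ 0 (E D τ 0 x) = E D τ 0 x := by ext1 <;> simp [tr]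
    simp [this]
  map_mul' v w := by
    apply unop_injective
    ext1 x
    simp [tr, add_assoc]

/-- Images of the generators. -/
noncomputable def genAct : Gen T → (Equiv.Perm (HP D))ᵐᵒᵖ
  | Gen.h b => op (mulL D (FreeGroup.of b))
  | Gen.z => op (addN D 1)
  | Gen.a τ => trHom D τ (Multiplicative.ofAdd (1, 0))
  | Gen.b τ => trHom D τ (Multiplicative.ofAdd (0, 1))
  | Gen.e τ i => op ((E D τ i).trans (E D τ 0).symm)

theorem trHom_pl (τ : T) (w : ℤ × ℤ) :
    trHom D τ (Multiplicative.ofAdd (1, 0)) ^ w.1 * trHom D τ (Multiplicative.ofAdd (0, 1)) ^ w.2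
      = trHom D τ (Multiplicative.ofAdd w) := by
  rw [← map_zpow (trHom D τ), ← map_zpow (trHom D τ), ← map_mul (trHom D τ)]
  congr 1
  apply Multiplicative.toAdd.injective
  simp

theorem genAct_rels : ∀ w ∈ rels D, FreeGroup.lift (genAct D) w = 1 := by
  rintro w (⟨b, rfl⟩ | ⟨τ, rfl⟩ | ⟨τ, rfl⟩ | ⟨τ, i, rfl⟩)
  · simp only [map_mul, map_inv, FreeGroup.lift_apply_of, genAct]
    rw [mul_inv_eq_one, mul_inv_eq_iff_eq_mul]
    apply unop_injective
    ext1 x
    rfl
  · simp only [map_mul, map_inv, FreeGroup.lift_apply_of, genAct]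
    rw [mul_inv_eq_one, mul_inv_eq_iff_eq_mul, ← map_mul (trHom D τ), ← map_mul (trHom D τ),
      mul_comm]
  · simp only [FreeGroup.lift_apply_of, genAct]
    apply unop_injective
    ext1 x
    simp
  · simp only [map_mul, map_inv, map_zpow, FreeGroup.lift_apply_of, genAct]
    rw [mul_inv_eq_one, trHom_pl, mul_assoc, inv_mul_eq_iff_eq_mul]
    apply unop_injective
    ext1 x
    have := E_addN D τ i 1 x
    simp only [one_smul] at this
    simp [trHom, this]

/-- The right action on hub points. -/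
noncomputable def Psi : Gam D →* (Equiv.Perm (HP D))ᵐᵒᵖ := PresentedGroup.toGroup (genAct_rels D)

noncomputable def act (x : HP D) (g : Gam D) : HP D := (Psi D g).unop x

theorem act_one (x : HP D) : act D x 1 = x := by simp [act]

theorem act_mul (x : HP D) (g h : Gam D) : act D x (g * h) = act D (act D x g) h := by
  simp [act]

theorem Psi_gn (y : Gen T) : Psi D (gn D y) = genAct D y := PresentedGroup.toGroup.of _

theorem act_inv_eq {x y : HP D} {g : Gam D} (h : act D y g = x) : act D x g⁻¹ = y := by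
  rw [← h, ← act_mul, mul_inv_cancel, act_one]

theorem act_pl (x : HP D) (τ : T) (w : ℤ × ℤ) :
    act D x (pl D τ w) = (E D τ 0).symm (tr D τ w (E D τ 0 x)) := by
  unfold act pl
  rw [map_mul, map_zpow, map_zpow, Psi_gn, Psi_gn]
  simp only [genAct]
  rw [trHom_pl]
  rfl

theorem act_ge (x : HP D) (τ : T) (i : Fin 3) :
    act D x (ge D τ i) = (E D τ 0).symm (E D τ i x) := by
  unfold act ge
  rw [Psi_gn]; rfl

theorem act_ge_inv (x : HP D) (τ : T) (i : Fin 3) :
    act D x (ge D τ i)⁻¹ = (E D τ i).symm (E D τ 0 x) := by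
  apply act_inv_eq
  rw [act_ge]; simp

theorem act_gz (x : HP D) : act D x (gz D) = addN D 1 x := by
  unfold act gz
  rw [Psi_gn]; rfl

theorem act_io (l : Lam) : ∀ x : HP D, act D x (io D l) = mulL D l x := by
  induction l using FreeGroup.induction_on with
  | C1 => intro x; rw [map_one, act_one]; simp [mulL]
  | of b =>
    intro x
    unfold act io
    rw [FreeGroup.lift_apply_of, Psi_gn]; rfl
  | inv_of b ih =>
    intro x
    rw [map_inv]
    apply act_inv_eq
    rw [ih]; simp [mulL]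
  | mul x y hx hy => intro p; rw [map_mul, act_mul, hx, hy]; simp [mulL, mul_assoc]

/-- Base point. -/
noncomputable def x0 : HP D := (E D D.τ0 0).symm ⟨[], 0, trivial, rfl⟩

/-- Normal form. -/
noncomputable def nf (g : Gam D) : HP D := act D (x0 D) g

theorem nf_mul (g h : Gam D) : nf D (g * h) = act D (nf D g) h := act_mul D _ _ _

/-- The group element of a plane point. -/
def pp {τ : T} (p : PP D τ) : Gam D := prodP D p.π * pl D τ p.v

theorem nf_prodP (π : List (Step T)) (hv : Valid D π) :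
    nf D (prodP D π) = (E D (typ D π) 0).symm ⟨π, 0, hv, rfl⟩ := by
  induction π with
  | nil => exact act_one D _
  | cons a π ih =>
    simp only [prodP, nf_mul]
    rw [ih hv.1, act_pl, act_ge_inv, act_io, act_ge]
    simp only [Equiv.apply_symm_apply]
    congr 1
    have h1 : (E D (typ D π) a.j).symm (tr D (typ D π) (D.r (typ D π) a.j a.c) ⟨π, 0, hv.1, rfl⟩)
        = ⟨π, a.j, a.c, 1, 0, hv.1, hv.2.1⟩ := by
      rw [Equiv.symm_apply_eq]
      refine Eq.trans ?_ (toPlane_pos D (typ D π) a.j ⟨π, a.j, a.c, 1, 0, hv.1, hv.2.1⟩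
        ⟨rfl, rfl, rfl⟩).symm
      simp [tr]
    rw [h1]
    show toPlane D _ _ _ = _
    rw [toPlane_neg]
    · simp only [mulL, Equiv.coe_fn_mk, one_mul, zero_smul]
      rfl
    · simpa [mulL] using hv.2.2

theorem nf_pp {τ : T} (p : PP D τ) : nf D (pp D p) = (E D τ 0).symm p := by
  obtain ⟨π, v, hv, hτ⟩ := p
  subst hτ
  unfold pp
  rw [nf_mul, nf_prodP D π hv, act_pl]
  simp [tr]

/-- The group element of a hub point. -/
def hp (x : HP D) : Gam D :=
  prodP D x.π * pl D (typ D x.π) (D.r (typ D x.π) x.j x.c) * (ge D (typ D x.π) x.j)⁻¹ *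
    io D x.l * gz D ^ x.n

theorem pp_E (τ : T) (i : Fin 3) (x : HP D) : pp D (E D τ i x) = hp D x * ge D τ i := by
  show pp D (toPlane D τ i x) = _
  by_cases h : x.l = 1 ∧ τ = typ D x.π ∧ i = x.j
  · rw [toPlane_pos D τ i x h]
    obtain ⟨h1, h2, h3⟩ := h
    subst h2 h3
    unfold pp hp
    simp only [h1, map_one, mul_one, pl_add, mul_assoc, gz_ge, inv_mul_cancel_left]
  · rw [toPlane_neg D τ i x h]
    unfold pp hp
    simp only [prodP, mul_assoc, gz_ge]

theorem hp_symm (τ : T) (p : PP D τ) : hp D ((E D τ 0).symm p) = pp D p := by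
  have := pp_E D τ 0 ((E D τ 0).symm p)
  rw [ge_zero, mul_one, Equiv.apply_symm_apply] at this
  exact this.symm

theorem hp_act (g : Gam D) : ∀ x : HP D, hp D (act D x g) = hp D x * g := by
  let S : Subgroup (Gam D) :=
    { carrier := {g | ∀ x : HP D, hp D (act D x g) = hp D x * g}
      mul_mem' := fun {a b} ha hb x => by rw [act_mul, hb, ha, mul_assoc]
      one_mem' := fun x => by rw [act_one, mul_one]
      inv_mem' := fun {a} ha x => by
        have := ha (act D x a⁻¹)
        rw [← act_mul, inv_mul_cancel, act_one] at this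
        rw [this, mul_inv_cancel_right] }
  refine PresentedGroup.generated_by (rels D) S ?_ g
  have hpl : ∀ τ w, pl D τ w ∈ S := by
    intro τ w x
    rw [act_pl, hp_symm]
    have := pp_E D τ 0 x
    rw [ge_zero, mul_one] at this
    rw [← this]
    unfold pp
    simp [tr, pl_add, mul_assoc]
  intro y
  cases y with
  | h b =>
    intro x
    have e : (PresentedGroup.of (Gen.h b) : Gam D) = io D (FreeGroup.of b) := by
      simp [io, gn]
    rw [e, act_io]
    unfold hp
    simp only [mulL, Equiv.coe_fn_mk, map_mul, mul_assoc]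
    rw [((comm_zio D (FreeGroup.of b)).zpow_left x.n).eq]
  | z =>
    intro x
    have e : (PresentedGroup.of Gen.z : Gam D) = gz D := rfl
    rw [e, act_gz]
    unfold hp
    simp only [addN, Equiv.coe_fn_mk, zpow_add, zpow_one, mul_assoc]
  | a τ => simpa [pl, gn] using hpl τ (1, 0)
  | b τ => simpa [pl, gn] using hpl τ (0, 1)
  | e τ i =>
    intro x
    have e : (PresentedGroup.of (Gen.e τ i) : Gam D) = ge D τ i := rfl
    rw [e, act_ge, hp_symm, pp_E]

theorem hp_nf (g : Gam D) : hp D (nf D g) = g := by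
  unfold nf
  rw [hp_act]
  unfold x0
  rw [hp_symm]
  simp [pp, prodP, pl_zero]

theorem pl_inj (w : ℤ × ℤ) (h : pl D D.τ0 w = 1) : w = 0 := by
  have h1 := nf_pp D (τ := D.τ0) ⟨[], w, trivial, rfl⟩
  have h2 := nf_pp D (τ := D.τ0) ⟨[], 0, trivial, rfl⟩
  simp only [pp, h, pl_zero] at h1 h2
  have := (E D D.τ0 0).symm.injective (h1.symm.trans h2)
  exact congrArg PP.v this

end Pool.Agent.H728Z.FBC
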