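import Pool.Agent.H728Z.FBC.Grp

set_option autoImplicit false

namespace Pool.Agent.H728Z.FBC

section Short

variable {G : Type} [Group G]

/-- Word length at most `n`. -/
def Short (S : Finset G) (n : ℕ) (g : G) : Prop :=
  ∃ l : List G, l.length ≤ n ∧ (∀ x ∈ l, x ∈ S ∨ x⁻¹ ∈ S) ∧ l.prod = g

variable {S : Finset G}

theorem Short.one (n : ℕ) : Short S n 1 := ⟨[], by simp, by simp, rfl⟩

theorem Short.mono {n m : ℕ} {g : G} (h : Short S n g) (hn : n ≤ m) : Short S m g := by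
  obtain ⟨l, h1, h2, h3⟩ := h
  exact ⟨l, h1.trans hn, h2, h3⟩

theorem Short.mul {n m : ℕ} {g h : G} (hg : Short S n g) (hh : Short S m h) :
    Short S (n + m) (g * h) := by
  obtain ⟨l, h1, h2, h3⟩ := hg
  obtain ⟨l', h1', h2', h3'⟩ := hh
  refine ⟨l ++ l', by simp; omega, ?_, by simp [h3, h3']⟩
  intro x hx
  rcases List.mem_append.mp hx with h | h
  · exact h2 x h
  · exact h2' x h

theorem Short.inv {n : ℕ} {g : G} (hg : Short S n g) : Short S n g⁻¹ := by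
  obtain ⟨l, h1, h2, h3⟩ := hg
  refine ⟨(l.map fun x => x⁻¹).reverse, by simpa using h1, ?_, by rw [← h3, List.prod_inv_reverse]⟩
  intro x hx
  simp only [List.mem_reverse, List.mem_map] at hx
  obtain ⟨y, hy, rfl⟩ := hx
  rw [inv_inv]
  exact (h2 y hy).symm

theorem Short.gen {g : G} (hg : g ∈ S) : Short S 1 g := ⟨[g], by simp, by simp [hg], by simp⟩

theorem Short.pow {g : G} (hg : Short S 1 g) (n : ℕ) : Short S n (g ^ n) := by
  induction n with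
  | zero => simpa using Short.one 0
  | succ n ih => rw [pow_succ]; exact ih.mul hg

theorem Short.zpow {g : G} (hg : Short S 1 g) {n : ℤ} {R : ℕ} (hn : |n| ≤ R) :
    Short S R (g ^ n) := by
  obtain ⟨m, rfl | rfl⟩ := Int.eq_nat_or_neg n
  · rw [zpow_natCast]
    refine (hg.pow m).mono ?_
    rw [Nat.abs_cast] at hn; exact_mod_cast hn
  · rw [zpow_neg, zpow_natCast]
    refine (hg.pow m).inv.mono ?_
    rw [abs_neg, Nat.abs_cast] at hn; exact_mod_cast hn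

/-- Word distance at most `n`. -/
def Near (S : Finset G) (n : ℕ) (a b : G) : Prop := Short S n (a⁻¹ * b)

theorem Near.refl (n : ℕ) (a : G) : Near S n a a := by
  unfold Near; rw [inv_mul_cancel]; exact Short.one n

theorem Near.symm {n : ℕ} {a b : G} (h : Near S n a b) : Near S n b a := by
  have := Short.inv h
  simpa [Near] using this

theorem Near.trans {n m : ℕ} {a b c : G} (h : Near S n a b) (h' : Near S m b c) :
    Near S (n + m) a c := by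
  have := Short.mul h h'
  unfold Near
  convert this using 1
  group

theorem Near.mono {n m : ℕ} {a b : G} (h : Near S n a b) (hn : n ≤ m) : Near S m a b :=
  Short.mono h hn

theorem Near.of_eq {n : ℕ} {a b w : G} (h : Short S n w) (e : b = a * w) : Near S n a b := by
  unfold Near; rw [e, inv_mul_cancel_left]; exact h

theorem lip_of_gen {H : Type} [Group H] {S' : Finset H} (f : G → H) (L : ℕ)
    (h : ∀ g, ∀ s ∈ S, Near S' L (f g) (f (g * s))) (n : ℕ) (a b : G) (hab : Near S n a b) :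
    Near S' (L * n) (f a) (f b) := by
  obtain ⟨l, h1, h2, h3⟩ := hab
  have key : ∀ (l : List G) (a : G), (∀ x ∈ l, x ∈ S ∨ x⁻¹ ∈ S) →
      Near S' (L * l.length) (f a) (f (a * l.prod)) := by
    intro l
    induction l with
    | nil => intro a _; simpa using Near.refl 0 (f a)
    | cons x l ih =>
      intro a hl
      have h4 : Near S' L (f a) (f (a * x)) := by
        rcases hl x (by simp) with hx | hx
        · exact h a x hx
        · have := h (a * x) x⁻¹ hx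
          rw [mul_inv_cancel_right] at this
          exact this.symm
      have h5 := ih (a * x) (fun y hy => hl y (by simp [hy]))
      have := h4.trans h5
      rw [List.prod_cons, ← mul_assoc]
      refine this.mono ?_
      simp only [List.length_cons]; nlinarith
  have := key l a h2
  rw [h3, mul_inv_cancel_left] at this
  exact this.mono (Nat.mul_le_mul_left L h1)

end Short

instance {T : Type} [Finite T] : Finite (Gen T) := by
  let f : Bool ⊕ Unit ⊕ T ⊕ T ⊕ (T × Fin 3) → Gen T := fun x => match x with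
    | Sum.inl b => Gen.h b
    | Sum.inr (Sum.inl _) => Gen.z
    | Sum.inr (Sum.inr (Sum.inl τ)) => Gen.a τ
    | Sum.inr (Sum.inr (Sum.inr (Sum.inl τ))) => Gen.b τ
    | Sum.inr (Sum.inr (Sum.inr (Sum.inr p))) => Gen.e p.1 p.2
  refine Finite.of_surjective f ?_
  intro y
  cases y with
  | h b => exact ⟨Sum.inl b, rfl⟩
  | z => exact ⟨Sum.inr (Sum.inl ()), rfl⟩
  | a τ => exact ⟨Sum.inr (Sum.inr (Sum.inl τ)), rfl⟩
  | b τ => exact ⟨Sum.inr (Sum.inr (Sum.inr (Sum.inl τ))), rfl⟩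
  | e τ i => exact ⟨Sum.inr (Sum.inr (Sum.inr (Sum.inr (τ, i)))), rfl⟩

/-- The finite generating set. -/
noncomputable def gens {T : Type} [Finite T] (D : Data T) : Finset (Gam D) :=
  (Set.finite_range (gn D)).toFinset

theorem closure_gens {T : Type} [Finite T] (D : Data T) :
    Subgroup.closure ((gens D : Finset (Gam D)) : Set (Gam D)) = ⊤ := by
  unfold gens
  rw [Set.Finite.coe_toFinset]
  exact PresentedGroup.closure_range_of _

theorem short_gn {T : Type} [Finite T] (D : Data T) (y : Gen T) : Short (gens D) 1 (gn D y) :=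
  Short.gen (by simp [gens])

/-- Real plane. -/
abbrev V := ℝ × ℝ

/-- Lattice points as real points. -/
def cv (w : ℤ × ℤ) : V := ((w.1 : ℝ), (w.2 : ℝ))

/-- Nearest lattice point. -/
noncomputable def rd (x : V) : ℤ × ℤ := (round x.1, round x.2)

theorem cv_add (v w : ℤ × ℤ) : cv (v + w) = cv v + cv w := by simp [cv]
theorem cv_sub (v w : ℤ × ℤ) : cv (v - w) = cv v - cv w := by simp [cv]
theorem cv_smul (n : ℤ) (w : ℤ × ℤ) : cv (n • w) = (n : ℝ) • cv w := by simp [cv]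

theorem norm_rd (x : V) : ‖cv (rd x) - x‖ ≤ 1 := by
  have h1 := abs_sub_round x.1
  have h2 := abs_sub_round x.2
  rw [abs_sub_comm] at h1 h2
  simp only [cv, rd, Prod.norm_def, Prod.fst_sub, Prod.snd_sub, Real.norm_eq_abs, sup_le_iff]
  constructor <;> linarith

theorem one_le_norm_cv {w : ℤ × ℤ} (h : w ≠ 0) : 1 ≤ ‖cv w‖ := by
  simp only [cv, Prod.norm_def, Real.norm_eq_abs, le_sup_iff]
  by_cases h1 : w.1 = 0
  · right
    have h2 : w.2 ≠ 0 := fun h2 => h (Prod.ext h1 h2)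
    have := Int.one_le_abs h2
    exact_mod_cast this
  · left
    have := Int.one_le_abs h1
    exact_mod_cast this

theorem short_pl {T : Type} [Finite T] (D : Data T) (τ : T) {w : ℤ × ℤ} {R : ℕ}
    (h : ‖cv w‖ ≤ R) : Short (gens D) (2 * R) (pl D τ w) := by
  simp only [cv, Prod.norm_def, Real.norm_eq_abs, sup_le_iff] at h
  have h1 : |w.1| ≤ (R : ℤ) := by exact_mod_cast h.1
  have h2 : |w.2| ≤ (R : ℤ) := by exact_mod_cast h.2
  rw [two_mul]
  exact ((short_gn D _).zpow h1).mul ((short_gn D _).zpow h2)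

theorem near_pl {T : Type} [Finite T] (D : Data T) (τ : T) (P : Gam D) {v w : ℤ × ℤ} {R : ℕ}
    (h : ‖cv v - cv w‖ ≤ R) : Near (gens D) (2 * R) (P * pl D τ v) (P * pl D τ w) := by
  refine Near.of_eq (short_pl D τ (w := w - v) ?_) ?_
  · rw [cv_sub, norm_sub_rev]; exact h
  · rw [mul_assoc, ← pl_add]; simp

theorem short_io {T : Type} [Finite T] (D : Data T) (l : Lam) :
    Short (gens D) (FreeGroup.norm l) (io D l) := by
  have key : ∀ w : List (Bool × Bool), Short (gens D) w.length (io D (FreeGroup.mk w)) := by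
    intro w
    induction w with
    | nil => exact (map_one (io D)).symm ▸ Short.one _
    | cons x w ih =>
      have e : FreeGroup.mk (x :: w) = FreeGroup.mk [x] * FreeGroup.mk w := by
        rw [FreeGroup.mul_mk]; rfl
      rw [e, map_mul, List.length_cons, add_comm]
      refine Short.mul ?_ ih
      obtain ⟨b, s⟩ := x
      cases s
      · rw [← of_inv_eq, map_inv]
        apply Short.inv
        simpa [io] using short_gn D (Gen.h b)
      · rw [← of_eq]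
        simpa [io] using short_gn D (Gen.h b)
  have := key l.toWord
  rwa [FreeGroup.mk_toWord] at this

theorem exists_Z {T : Type} [Finite T] (D : Data T) : ∃ Z : ℕ, ∀ τ i, ‖cv (D.z τ i)‖ ≤ Z := by
  obtain ⟨M, hM⟩ := (Set.finite_range fun p : T × Fin 3 => ‖cv (D.z p.1 p.2)‖).bddAbove
  obtain ⟨Z, hZ⟩ := exists_nat_ge M
  exact ⟨Z, fun τ i => (hM ⟨(τ, i), rfl⟩).trans hZ⟩

variable {T₁ T₂ : Type}

/-- Local compatibility of a plane map `F` with the matching `m` of the child planes and the maps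
`Fch` of the child planes. -/
def Half (D₁ : Data T₁) (D₂ : Data T₂) (K : ℕ) (τ : T₁) (en : Option (Fin 3)) (τ' : T₂)
    (F : V → V) (m : Step T₁ → Step T₂) (Fch : Step T₁ → V → V) : Prop :=
  (∀ x y, ‖F x - F y‖ ≤ K * ‖x - y‖) ∧ Loc K τ en m ∧
  ∃ (s : Fin 3 → Fin 3) (lam : Fin 3 → ℝ),
    (∀ j x (n : ℝ), F (x + n • cv (D₁.z τ j)) = F x + (lam j * n) • cv (D₂.z τ' (s j))) ∧
    ∀ a, VS τ en a → (m a).j = s a.j ∧ ∃ t : ℝ,
      ‖F (cv (D₁.r τ a.j a.c)) - (cv (D₂.r τ' (m a).j (m a).c) + t • cv (D₂.z τ' (m a).j))‖ ≤ K ∧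
      ∀ n : ℝ, Fch a (n • cv (D₁.z a.τ a.i)) = (t + lam a.j * n) • cv (D₂.z (m a).τ (m a).i)

/-- A compatible system of plane maps. -/
def Sys (D₁ : Data T₁) (D₂ : Data T₂) (K : ℕ) (Φ : List (Step T₁) → List (Step T₂))
    (F : List (Step T₁) → V → V) : Prop :=
  ∀ π, Valid D₁ π → Valid D₂ (Φ π) ∧ ∃ m : Step T₁ → Step T₂,
    (∀ a, VS (typ D₁ π) (entry π) a → Φ (a :: π) = m a :: Φ π) ∧
    Half D₁ D₂ K (typ D₁ π) (entry π) (typ D₂ (Φ π)) (F π) m (fun a => F (a :: π))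

section Main

variable (D₁ : Data T₁) (D₂ : Data T₂) (Φ : List (Step T₁) → List (Step T₂))
  (F : List (Step T₁) → V → V)

/-- The map on plane points. -/
noncomputable def fhat {τ : T₁} (p : PP D₁ τ) : Gam D₂ :=
  prodP D₂ (Φ p.π) * pl D₂ (typ D₂ (Φ p.π)) (rd (F p.π (cv p.v)))

/-- The map between the groups. -/
noncomputable def fmap (g : Gam D₁) : Gam D₂ := fhat D₁ D₂ Φ F (E D₁ D₁.τ0 0 (nf D₁ g))

variable [Finite T₂] {D₁ D₂ Φ F} {K : ℕ}

theorem fhat_tr (h : Sys D₁ D₂ K Φ F) {τ : T₁} (p : PP D₁ τ) (w : ℤ × ℤ) {R : ℕ}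
    (hw : ‖cv w‖ ≤ R) :
    Near (gens D₂) (2 * (K * R + 2)) (fhat D₁ D₂ Φ F p) (fhat D₁ D₂ Φ F (tr D₁ τ w p)) := by
  obtain ⟨-, m, -, hL, -⟩ := h p.π p.hv
  refine near_pl D₂ _ _ ?_
  have h1 := hL (cv p.v) (cv (p.v + w))
  have h2 := norm_rd (F p.π (cv p.v))
  have h3 := norm_rd (F p.π (cv (p.v + w)))
  have h4 : ‖cv p.v - cv (p.v + w)‖ = ‖cv w‖ := by rw [cv_add]; simp
  rw [h4] at h1
  have h5 : (K : ℝ) * ‖cv w‖ ≤ K * R := by gcongr
  show ‖cv (rd (F p.π (cv p.v))) - cv (rd (F p.π (cv (p.v + w))))‖ ≤ _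
  have h6 := norm_sub_le_norm_sub_add_norm_sub (cv (rd (F p.π (cv p.v)))) (F p.π (cv p.v))
    (cv (rd (F p.π (cv (p.v + w)))))
  have h7 := norm_sub_le_norm_sub_add_norm_sub (F p.π (cv p.v)) (F p.π (cv (p.v + w)))
    (cv (rd (F p.π (cv (p.v + w)))))
  rw [norm_sub_rev] at h3
  push_cast
  linarith

theorem hub_lemma (h : Sys D₁ D₂ K Φ F) : ∃ C : ℕ, ∀ (x : HP D₁) (l' : Lam),
    FreeGroup.norm l' ≤ 1 → ∀ τ₁ i₁ τ₂ i₂, Near (gens D₂) C (fhat D₁ D₂ Φ F (E D₁ τ₁ i₁ x))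
      (fhat D₁ D₂ Φ F (E D₁ τ₂ i₂ (mulL D₁ l' x))) := by
  obtain ⟨Z, hZ⟩ := exists_Z D₂
  refine ⟨2 * (2 * (Z + 1) + 1) + 2 * (K + 1 + 2 * (K + Z + 1)) + (2 * (K + Z) + K), ?_⟩
  intro x l' hl' τ₁ i₁ τ₂ i₂
  obtain ⟨hv', m, hm, hL, hLoc, s, lam, hfib, hch⟩ := h x.π x.hv
  set τ := typ D₁ x.π with hτ
  set τ' := typ D₂ (Φ x.π) with hτ'
  set P := prodP D₂ (Φ x.π) with hP
  set y := F x.π (cv (D₁.r τ x.j x.c + x.n • D₁.z τ x.j)) with hy
  have parent : ∀ (l : Lam) τ₁ i₁, (l = 1 ∧ τ₁ = τ ∧ i₁ = x.j) →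
      fhat D₁ D₂ Φ F (E D₁ τ₁ i₁ ⟨x.π, x.j, x.c, l, x.n, x.hv, x.hc⟩) = P * pl D₂ τ' (rd y) := by
    intro l τ₁ i₁ hc
    show fhat D₁ D₂ Φ F (toPlane D₁ τ₁ i₁ _) = _
    rw [toPlane_pos D₁ τ₁ i₁ _ hc]
    obtain ⟨-, h2, h3⟩ := hc
    subst h2 h3
    rfl
  have child : ∀ (l : Lam) τ₁ i₁, ¬ (l = 1 ∧ τ₁ = τ ∧ i₁ = x.j) → ∃ N : ℤ,
      ‖cv (D₂.r τ' (s x.j) (m ⟨x.j, x.c, l, τ₁, i₁⟩).c + N • D₂.z τ' (s x.j)) - y‖ ≤ (K + Z : ℕ) ∧
      Near (gens D₂) (2 * (Z + 1) + 1)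
        (fhat D₁ D₂ Φ F (E D₁ τ₁ i₁ ⟨x.π, x.j, x.c, l, x.n, x.hv, x.hc⟩))
        (P * pl D₂ τ' (D₂.r τ' (s x.j) (m ⟨x.j, x.c, l, τ₁, i₁⟩).c) * (ge D₂ τ' (s x.j))⁻¹ *
          gz D₂ ^ N * io D₂ (m ⟨x.j, x.c, l, τ₁, i₁⟩).l) := by
    intro l τ₁ i₁ hc
    set a : Step T₁ := ⟨x.j, x.c, l, τ₁, i₁⟩ with ha
    have hva : VS τ (entry x.π) a := ⟨x.hc, hc⟩
    obtain ⟨hj, t, ht1, ht2⟩ := hch a hva
    have hj' : (m a).j = s x.j := hj
    rw [hj'] at ht1
    refine ⟨round (t + lam x.j * x.n), ?_, ?_⟩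
    · have e1 : y = F x.π (cv (D₁.r τ x.j x.c)) + (lam x.j * x.n) • cv (D₂.z τ' (s x.j)) := by
        rw [hy, cv_add, cv_smul, hfib]
      have e2 : cv (D₂.r τ' (s x.j) (m a).c + round (t + lam x.j * x.n) • D₂.z τ' (s x.j)) - y
          = ((round (t + lam x.j * x.n) : ℝ) - (t + lam x.j * x.n)) • cv (D₂.z τ' (s x.j))
            - (F x.π (cv (D₁.r τ x.j x.c)) -
              (cv (D₂.r τ' (s x.j) (m a).c) + t • cv (D₂.z τ' (s x.j)))) := by
        rw [e1, cv_add, cv_smul]; module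
      rw [e2]
      refine (norm_sub_le _ _).trans ?_
      have h1 : ‖((round (t + lam x.j * x.n) : ℝ) - (t + lam x.j * x.n)) • cv (D₂.z τ' (s x.j))‖
          ≤ Z := by
        rw [norm_smul, Real.norm_eq_abs]
        have h2 := abs_sub_round (t + lam x.j * x.n)
        rw [abs_sub_comm] at h2
        have h3 := hZ τ' (s x.j)
        have h4 := norm_nonneg (cv (D₂.z τ' (s x.j)))
        have h5 := abs_nonneg ((round (t + lam x.j * x.n) : ℝ) - (t + lam x.j * x.n))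
        nlinarith
      have h6 : ‖F x.π (cv (D₁.r τ x.j x.c)) -
          (cv (D₂.r τ' (s x.j) (m a).c) + t • cv (D₂.z τ' (s x.j)))‖ ≤ K := ht1
      push_cast
      linarith
    · have e0 : fhat D₁ D₂ Φ F (E D₁ τ₁ i₁ ⟨x.π, x.j, x.c, l, x.n, x.hv, x.hc⟩) =
          (P * pl D₂ τ' (D₂.r τ' (s x.j) (m a).c) * (ge D₂ τ' (s x.j))⁻¹ * io D₂ (m a).l *
            ge D₂ (m a).τ (m a).i) *
            pl D₂ (m a).τ (rd ((t + lam x.j * x.n) • cv (D₂.z (m a).τ (m a).i))) := by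
        show fhat D₁ D₂ Φ F (toPlane D₁ τ₁ i₁ _) = _
        rw [toPlane_neg D₁ τ₁ i₁ _ hc]
        show prodP D₂ (Φ (a :: x.π)) * pl D₂ (typ D₂ (Φ (a :: x.π)))
          (rd (F (a :: x.π) (cv (x.n • D₁.z τ₁ i₁)))) = _
        rw [hm a hva, cv_smul]
        have := ht2 x.n
        simp only at this
        rw [this]
        simp only [prodP, typ, hj']
        rfl
      rw [e0]
      have h1 : ‖cv (rd ((t + lam x.j * x.n) • cv (D₂.z (m a).τ (m a).i))) -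
          cv (round (t + lam x.j * x.n) • D₂.z (m a).τ (m a).i)‖ ≤ (Z + 1 : ℕ) := by
        have h2 := norm_rd ((t + lam x.j * x.n) • cv (D₂.z (m a).τ (m a).i))
        have h3 := norm_sub_le_norm_sub_add_norm_sub
          (cv (rd ((t + lam x.j * x.n) • cv (D₂.z (m a).τ (m a).i))))
          ((t + lam x.j * x.n) • cv (D₂.z (m a).τ (m a).i))
          (cv (round (t + lam x.j * x.n) • D₂.z (m a).τ (m a).i))
        have h4 : ‖(t + lam x.j * x.n) • cv (D₂.z (m a).τ (m a).i) -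
            cv (round (t + lam x.j * x.n) • D₂.z (m a).τ (m a).i)‖ ≤ Z := by
          rw [cv_smul, ← sub_smul, norm_smul, Real.norm_eq_abs]
          have h2 := abs_sub_round (t + lam x.j * x.n)
          have h3 := hZ (m a).τ (m a).i
          have h4 := norm_nonneg (cv (D₂.z (m a).τ (m a).i))
          have h5 := abs_nonneg ((t + lam x.j * x.n) - (round (t + lam x.j * x.n) : ℝ))
          nlinarith
        push_cast
        linarith
      refine (near_pl D₂ _ _ h1).trans ?_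
      refine Near.of_eq (short_gn D₂ (Gen.e (m a).τ (m a).i)).inv ?_
      have e3 := gz_ge D₂ (m a).τ (m a).i (round (t + lam x.j * x.n))
      have e4 := ((comm_zio D₂ (m a).l).zpow_left (round (t + lam x.j * x.n))).eq
      show _ = _ * (ge D₂ (m a).τ (m a).i)⁻¹
      simp only [mul_assoc]
      rw [← mul_assoc (ge D₂ (m a).τ (m a).i), ← e3, e4]
      simp only [mul_assoc, mul_inv_cancel, mul_one]
  have toParent : ∀ (c' N : ℤ) (l : Lam), FreeGroup.norm l ≤ K →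
      ‖cv (D₂.r τ' (s x.j) c' + N • D₂.z τ' (s x.j)) - y‖ ≤ (K + Z : ℕ) →
      Near (gens D₂) (K + 1 + 2 * (K + Z + 1))
        (P * pl D₂ τ' (D₂.r τ' (s x.j) c') * (ge D₂ τ' (s x.j))⁻¹ * gz D₂ ^ N * io D₂ l)
        (P * pl D₂ τ' (rd y)) := by
    intro c' N l hl hN
    have h1 : Near (gens D₂) (K + 1)
        (P * pl D₂ τ' (D₂.r τ' (s x.j) c') * (ge D₂ τ' (s x.j))⁻¹ * gz D₂ ^ N * io D₂ l)
        (P * pl D₂ τ' (D₂.r τ' (s x.j) c' + N • D₂.z τ' (s x.j))) := by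
      refine Near.of_eq (((short_io D₂ l).mono hl).inv.mul (short_gn D₂ (Gen.e τ' (s x.j)))) ?_
      have e3 := gz_ge D₂ τ' (s x.j) N
      show _ = _ * ((io D₂ l)⁻¹ * ge D₂ τ' (s x.j))
      simp only [mul_assoc, mul_inv_cancel_left, e3, inv_mul_cancel_left, pl_add]
    refine h1.trans (near_pl D₂ _ _ ?_)
    have h2 := norm_rd y
    have h3 := norm_sub_le_norm_sub_add_norm_sub
      (cv (D₂.r τ' (s x.j) c' + N • D₂.z τ' (s x.j))) y (cv (rd y))
    rw [norm_sub_rev] at h2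
    push_cast at hN ⊢
    linarith
  have ex1 : x = ⟨x.π, x.j, x.c, x.l, x.n, x.hv, x.hc⟩ := rfl
  have ex2 : mulL D₁ l' x = ⟨x.π, x.j, x.c, x.l * l', x.n, x.hv, x.hc⟩ := rfl
  rw [ex2]
  conv => enter [3]; rw [ex1]
  by_cases c1 : x.l = 1 ∧ τ₁ = τ ∧ i₁ = x.j
  · rw [parent _ _ _ c1]
    by_cases c2 : x.l * l' = 1 ∧ τ₂ = τ ∧ i₂ = x.j
    · rw [parent _ _ _ c2]; exact Near.refl _ _
    · obtain ⟨N, h1, h2⟩ := child _ _ _ c2
      have h3 := hLoc.1 ⟨x.j, x.c, x.l * l', τ₂, i₂⟩ ⟨x.hc, c2⟩ (by simpa [c1.1] using hl')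
      exact (h2.trans (toParent _ _ _ h3 h1)).symm.mono (by omega)
  · obtain ⟨N, h1, h2⟩ := child _ _ _ c1
    by_cases c2 : x.l * l' = 1 ∧ τ₂ = τ ∧ i₂ = x.j
    · rw [parent _ _ _ c2]
      have h3 := hLoc.1 ⟨x.j, x.c, x.l, τ₁, i₁⟩ ⟨x.hc, c1⟩ (by
        have : x.l = l'⁻¹ := eq_inv_of_mul_eq_one_left c2.1
        simpa [this] using hl')
      exact (h2.trans (toParent _ _ _ h3 h1)).mono (by omega)
    · obtain ⟨N', h1', h2'⟩ := child _ _ _ c2
      rcases hLoc.2 ⟨x.j, x.c, x.l, τ₁, i₁⟩ ⟨x.j, x.c, x.l * l', τ₂, i₂⟩ ⟨x.hc, c1⟩ ⟨x.hc, c2⟩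
        rfl rfl (by simpa using hl') with ⟨h3, h4⟩ | ⟨h3, h4⟩
      · rw [← h3] at h1' h2'
        have hN : |N' - N| ≤ (2 * (K + Z) : ℕ) := by
          have h5 := norm_sub_le_norm_sub_add_norm_sub
            (cv (D₂.r τ' (s x.j) (m ⟨x.j, x.c, x.l, τ₁, i₁⟩).c + N' • D₂.z τ' (s x.j))) y
            (cv (D₂.r τ' (s x.j) (m ⟨x.j, x.c, x.l, τ₁, i₁⟩).c + N • D₂.z τ' (s x.j)))
          rw [norm_sub_rev y] at h5
          rw [← cv_sub, add_sub_add_left_eq_sub, ← sub_smul, cv_smul, norm_smul,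
            Real.norm_eq_abs] at h5
          have h6 := one_le_norm_cv (D₂.A5 τ' (s x.j))
          have h7 := abs_nonneg ((N' - N : ℤ) : ℝ)
          have h8 : |((N' - N : ℤ) : ℝ)| ≤ (2 * (K + Z) : ℕ) := by
            push_cast at h1 h1' h5 h7 ⊢
            nlinarith
          exact_mod_cast h8
        have h9 : Near (gens D₂) (2 * (K + Z) + K)
            (P * pl D₂ τ' (D₂.r τ' (s x.j) (m ⟨x.j, x.c, x.l, τ₁, i₁⟩).c) * (ge D₂ τ' (s x.j))⁻¹ *
              gz D₂ ^ N * io D₂ (m ⟨x.j, x.c, x.l, τ₁, i₁⟩).l)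
            (P * pl D₂ τ' (D₂.r τ' (s x.j) (m ⟨x.j, x.c, x.l, τ₁, i₁⟩).c) * (ge D₂ τ' (s x.j))⁻¹ *
              gz D₂ ^ N' * io D₂ (m ⟨x.j, x.c, x.l * l', τ₂, i₂⟩).l) := by
          refine Near.of_eq (((short_gn D₂ Gen.z).zpow hN).mul ((short_io D₂ _).mono h4)) ?_
          have e4 := ((comm_zio D₂ (m ⟨x.j, x.c, x.l, τ₁, i₁⟩).l).zpow_left (N' - N)).eq
          show _ = _ * (gz D₂ ^ (N' - N) * _)
          simp only [mul_assoc, map_mul, map_inv]
          rw [← mul_assoc (io D₂ (m ⟨x.j, x.c, x.l, τ₁, i₁⟩).l), ← e4]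
          simp only [mul_assoc, mul_inv_cancel_left]
          rw [← mul_assoc (gz D₂ ^ N), ← zpow_add]
          simp
        exact ((h2.trans h9).trans h2'.symm).mono (by omega)
      · exact ((h2.trans (toParent _ _ _ h3 h1)).trans
          (h2'.trans (toParent _ _ _ h4 h1')).symm).mono (by omega)

theorem mulL_one {T : Type} (D : Data T) (x : HP D) : mulL D 1 x = x := by simp [mulL]

theorem fmap_lip [Finite T₁] (h : Sys D₁ D₂ K Φ F) : ∃ L : ℕ, ∀ g, ∀ s ∈ gens D₁,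
    Near (gens D₂) L (fmap D₁ D₂ Φ F g) (fmap D₁ D₂ Φ F (g * s)) := by
  obtain ⟨C, hC⟩ := hub_lemma h
  obtain ⟨Z, hZ⟩ := exists_Z D₁
  have h0 : ∀ x τ₁ i₁ τ₂ i₂, Near (gens D₂) C (fhat D₁ D₂ Φ F (E D₁ τ₁ i₁ x))
      (fhat D₁ D₂ Φ F (E D₁ τ₂ i₂ x)) := by
    intro x τ₁ i₁ τ₂ i₂
    have := hC x 1 (by simp) τ₁ i₁ τ₂ i₂
    rwa [mulL_one] at this
  refine ⟨2 * C + 2 * (K * (Z + 1) + 2), ?_⟩
  intro g s hs
  have hpl : ∀ τ w, ‖cv w‖ ≤ (Z + 1 : ℕ) → Near (gens D₂) (2 * C + 2 * (K * (Z + 1) + 2))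
      (fmap D₁ D₂ Φ F g) (fmap D₁ D₂ Φ F (g * pl D₁ τ w)) := by
    intro τ w hw
    unfold fmap
    rw [nf_mul, act_pl]
    have h1 := h0 (nf D₁ g) D₁.τ0 0 τ 0
    have h2 := fhat_tr h (E D₁ τ 0 (nf D₁ g)) w hw
    have h3 := h0 ((E D₁ τ 0).symm (tr D₁ τ w (E D₁ τ 0 (nf D₁ g)))) τ 0 D₁.τ0 0
    rw [Equiv.apply_symm_apply] at h3
    exact ((h1.trans h2).trans h3).mono (by omega)
  simp only [gens, Set.Finite.mem_toFinset, Set.mem_range] at hs
  obtain ⟨y, rfl⟩ := hs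
  cases y with
  | h b =>
    have e : gn D₁ (Gen.h b) = io D₁ (FreeGroup.of b) := by simp [io]
    unfold fmap
    rw [e, nf_mul, act_io]
    exact (hC _ _ (by simp) _ _ _ _).mono (by omega)
  | z =>
    unfold fmap
    have e : gn D₁ Gen.z = gz D₁ := rfl
    rw [e, nf_mul, act_gz, E_addN]
    refine (fhat_tr h _ _ (R := Z + 1) ?_).mono (by omega)
    have := hZ D₁.τ0 0
    rw [one_smul]; push_cast; linarith
  | a τ =>
    have := hpl τ (1, 0) (by simp [cv, Prod.norm_def])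
    simpa [pl] using this
  | b τ =>
    have := hpl τ (0, 1) (by simp [cv, Prod.norm_def])
    simpa [pl] using this
  | e τ i =>
    unfold fmap
    have e : gn D₁ (Gen.e τ i) = ge D₁ τ i := rfl
    rw [e, nf_mul, act_ge]
    have h1 := h0 (nf D₁ g) D₁.τ0 0 τ i
    have h3 := h0 ((E D₁ τ 0).symm (E D₁ τ i (nf D₁ g))) τ 0 D₁.τ0 0
    rw [Equiv.apply_symm_apply] at h3
    exact (h1.trans h3).mono (by omega)

omit [Finite T₂] in
theorem fmap_inv [Finite T₁] {Φ' : List (Step T₂) → List (Step T₁)}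
    {F' : List (Step T₂) → V → V} (h : Sys D₁ D₂ K Φ F) (h' : Sys D₂ D₁ K Φ' F')
    (hΦ : ∀ π, Valid D₁ π → Φ' (Φ π) = π ∧ ∀ x, F' (Φ π) (F π x) = x) :
    ∃ C : ℕ, ∀ g, Near (gens D₁) C (fmap D₂ D₁ Φ' F' (fmap D₁ D₂ Φ F g)) g := by
  obtain ⟨C, hC⟩ := hub_lemma h'
  refine ⟨C + 2 * (K + 1), fun g => ?_⟩
  set p := E D₁ D₁.τ0 0 (nf D₁ g) with hp
  have hg : pp D₁ p = g := by rw [hp, pp_E, ge_zero, mul_one, hp_nf]
  obtain ⟨hv', -⟩ := h p.π p.hv
  let p' : PP D₂ (typ D₂ (Φ p.π)) := ⟨Φ p.π, rd (F p.π (cv p.v)), hv', rfl⟩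
  have e1 : fmap D₁ D₂ Φ F g = pp D₂ p' := rfl
  rw [e1]
  unfold fmap
  rw [nf_pp]
  have h1 := hC ((E D₂ (typ D₂ (Φ p.π)) 0).symm p') 1 (by simp) D₂.τ0 0 (typ D₂ (Φ p.π)) 0
  rw [mulL_one, Equiv.apply_symm_apply] at h1
  refine h1.trans ?_
  obtain ⟨h2, h3⟩ := hΦ p.π p.hv
  obtain ⟨-, m, -, hL, -⟩ := h' _ hv'
  have e2 : fhat D₂ D₁ Φ' F' p' = prodP D₁ p.π * pl D₁ D₁.τ0
      (rd (F' (Φ p.π) (cv (rd (F p.π (cv p.v)))))) := by
    show prodP D₁ (Φ' (Φ p.π)) * pl D₁ (typ D₁ (Φ' (Φ p.π))) _ = _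
    rw [h2, p.hτ]
  rw [e2, ← hg]
  refine near_pl D₁ _ _ ?_
  have h4 := hL (cv (rd (F p.π (cv p.v)))) (F p.π (cv p.v))
  rw [h3] at h4
  have h5 := norm_rd (F p.π (cv p.v))
  have h6 := norm_rd (F' (Φ p.π) (cv (rd (F p.π (cv p.v)))))
  have h7 := norm_sub_le_norm_sub_add_norm_sub
    (cv (rd (F' (Φ p.π) (cv (rd (F p.π (cv p.v))))))) (F' (Φ p.π) (cv (rd (F p.π (cv p.v)))))
    (cv p.v)
  have h8 : (K : ℝ) * ‖cv (rd (F p.π (cv p.v))) - F p.π (cv p.v)‖ ≤ K * 1 := by gcongr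
  push_cast
  linarith

end Main

end Pool.Agent.H728Z.FBC
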