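import Pool.Agent.H728Z.FBC.Free

set_option autoImplicit false

namespace Pool.Agent.H728Z.FBC

open FreeGroup

/-- One step of an address: leave the current plane in direction `j` along the coset `c`,
move by `l` in the hub, enter a plane of type `τ` in direction `i`. -/
@[ext] structure Step (T : Type) where
  j : Fin 3
  c : ℤ
  l : Lam
  τ : T
  i : Fin 3

/-- No backtracking. -/
def VS {T : Type} (τ : T) (en : Option (Fin 3)) (a : Step T) : Prop :=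
  ¬ (en = some a.j ∧ a.c = 0) ∧ ¬ (a.l = 1 ∧ a.τ = τ ∧ a.i = a.j)

/-- The fibres of `β j`, with the entry coset removed, are nonempty of size at most `K`. -/
def BlockOK (K : ℕ) (en : Option (Fin 3)) (β : Fin 3 → ℤ → ℤ) : Prop :=
  ∀ j k, ∃ B : Finset ℤ, B.Nonempty ∧ B.card ≤ K ∧
    ∀ c, c ∈ B ↔ β j c = k ∧ ¬ (en = some j ∧ c = 0)

/-- Chosen wedge data for all blocks. -/
structure Side (K : ℕ) (en : Option (Fin 3)) (β : Fin 3 → ℤ → ℤ) where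
  B : Fin 3 → ℤ → Finset ℤ
  w : Fin 3 → ℤ → ℤ → Lam → Lam
  cc : Fin 3 → ℤ → Lam → ℤ
  w' : Fin 3 → ℤ → Lam → Lam
  mem : ∀ j k c, c ∈ B j k ↔ β j c = k ∧ ¬ (en = some j ∧ c = 0)
  wq : ∀ j k, WQ (B j k) K (w j k) (cc j k) (w' j k)

theorem exists_side {K : ℕ} {en : Option (Fin 3)} {β : Fin 3 → ℤ → ℤ} (h : BlockOK K en β) :
    Nonempty (Side K en β) := by
  choose B h1 h2 h3 using h
  have h4 := fun j k => exists_WQ (B j k) (h1 j k)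
  choose w cc w' h5 using h4
  exact ⟨⟨B, w, cc, w', h3, fun j k => (h5 j k).mono (h2 j k)⟩⟩

/-- The position of a step in the common tree of its block. -/
def Side.Θ {T : Type} {K : ℕ} {en : Option (Fin 3)} {β : Fin 3 → ℤ → ℤ} (S : Side K en β)
    (a : Step T) : Lam := S.w a.j (β a.j a.c) a.c a.l * a.l

theorem exists_inj (T₁ : Type) [Finite T₁] (K : ℕ) : ∃ N : ℕ, ∀ (T₂ : Type) (τ₁ : T₁)
    (en₁ : Option (Fin 3)) (τ₂ : T₂) (en₂ : Option (Fin 3)) (β₁ β₂ : Fin 3 → ℤ → ℤ)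
    (S₁ : Side K en₁ β₁) (S₂ : Side K en₂ β₂) (σ : Equiv.Perm (Fin 3))
    (A : Fin 3 → T₁ × Fin 3 → T₂ × Fin 3 → Prop) (_ : ∀ j α, ∃ α', A j α α'),
    ∃ f : {a // VS τ₁ en₁ a} → {a // VS τ₂ en₂ a}, Function.Injective f ∧
      ∀ a, (f a).1.j = σ a.1.j ∧ β₁ a.1.j a.1.c = β₂ (f a).1.j (f a).1.c ∧
        A a.1.j (a.1.τ, a.1.i) ((f a).1.τ, (f a).1.i) ∧
        norm ((S₁.Θ a.1)⁻¹ * S₂.Θ (f a).1) ≤ N := by
  obtain ⟨N, ρ, h1, h2, h3⟩ := exists_push (T₁ × Fin 3) K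
  refine ⟨N, ?_⟩
  intro T₂ τ₁ en₁ τ₂ en₂ β₁ β₂ S₁ S₂ σ A hA
  choose mA hmA using hA
  let G : Step T₁ → Lam := fun a => ρ (S₁.Θ a) (a.τ, a.i)
  let F : Step T₁ → Step T₂ := fun a =>
    ⟨σ a.j, S₂.cc (σ a.j) (β₁ a.j a.c) (G a), S₂.w' (σ a.j) (β₁ a.j a.c) (G a) * G a,
      (mA a.j (a.τ, a.i)).1, (mA a.j (a.τ, a.i)).2⟩
  have hβ : ∀ a, β₂ (F a).j (F a).c = β₁ a.j a.c := fun a =>
    ((S₂.mem _ _ _).mp ((S₂.wq (σ a.j) (β₁ a.j a.c)).mem (G a))).1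
  have hΘ : ∀ a, S₂.Θ (F a) = G a := by
    intro a
    unfold Side.Θ
    rw [hβ a]
    have := (S₂.wq (σ a.j) (β₁ a.j a.c)).ri (G a) (h1 _ _)
    show S₂.w (σ a.j) (β₁ a.j a.c) (S₂.cc (σ a.j) (β₁ a.j a.c) (G a))
      (S₂.w' (σ a.j) (β₁ a.j a.c) (G a) * G a) * (S₂.w' (σ a.j) (β₁ a.j a.c) (G a) * G a) = G a
    rw [this]; group
  have hV : ∀ a, VS τ₂ en₂ (F a) := by
    intro a
    refine ⟨((S₂.mem _ _ _).mp ((S₂.wq (σ a.j) (β₁ a.j a.c)).mem (G a))).2, ?_⟩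
    rintro ⟨h4, -⟩
    have h5 := hΘ a
    unfold Side.Θ at h5
    rw [h4, mul_one] at h5
    have h6 := (S₂.wq (F a).j (β₂ (F a).j (F a).c)).nw (F a).c 1
    rw [h5] at h6
    have := h1 (S₁.Θ a) (a.τ, a.i)
    exact absurd h6 (not_le.mpr this)
  refine ⟨fun a => ⟨F a.1, hV a.1⟩, ?_, ?_⟩
  · rintro ⟨a, ha⟩ ⟨b, hb⟩ hab
    have e : F a = F b := congrArg Subtype.val hab
    have ej : a.j = b.j := σ.injective (congrArg Step.j e)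
    have ek : β₁ a.j a.c = β₁ b.j b.c := by rw [← hβ a, ← hβ b, e]
    have eG : G a = G b := by rw [← hΘ a, ← hΘ b, e]
    obtain ⟨e1, e2⟩ := h3 _ _ _ _ eG
    simp only [Prod.mk.injEq] at e2
    unfold Side.Θ at e1
    have ma : a.c ∈ S₁.B a.j (β₁ a.j a.c) := (S₁.mem _ _ _).mpr ⟨rfl, ha.1⟩
    have mb : b.c ∈ S₁.B a.j (β₁ a.j a.c) := (S₁.mem _ _ _).mpr ⟨by rw [ek, ej], ej ▸ hb.1⟩
    obtain ⟨l1, l2⟩ := (S₁.wq a.j (β₁ a.j a.c)).li a.c ma a.l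
    obtain ⟨l3, l4⟩ := (S₁.wq a.j (β₁ a.j a.c)).li b.c mb b.l
    rw [← ek, ← ej] at e1
    rw [e1] at l1 l2
    have ec : a.c = b.c := l1.symm.trans l3
    have ew : S₁.w a.j (β₁ a.j a.c) a.c a.l = S₁.w a.j (β₁ a.j a.c) b.c b.l :=
      inv_injective (l2.symm.trans l4)
    rw [ew] at e1
    exact Subtype.ext (Step.ext ej ec (mul_left_cancel e1) e2.1 e2.2)
  · intro a
    refine ⟨rfl, (hβ a.1).symm, hmA _ _, ?_⟩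
    show norm ((S₁.Θ a.1)⁻¹ * S₂.Θ (F a.1)) ≤ N
    rw [hΘ]
    exact h2 _ _

/-- Coarse continuity of a matching of steps. -/
def Loc {T₁ T₂ : Type} (C : ℕ) (τ : T₁) (en : Option (Fin 3)) (m : Step T₁ → Step T₂) : Prop :=
  (∀ a, VS τ en a → norm a.l ≤ 1 → norm (m a).l ≤ C) ∧
  (∀ a₁ a₂, VS τ en a₁ → VS τ en a₂ → a₁.j = a₂.j → a₁.c = a₂.c → norm (a₁.l⁻¹ * a₂.l) ≤ 1 →
    ((m a₁).c = (m a₂).c ∧ norm ((m a₁).l⁻¹ * (m a₂).l) ≤ C) ∨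
      (norm (m a₁).l ≤ C ∧ norm (m a₂).l ≤ C))

theorem norm_tri (a b c : Lam) : norm (a⁻¹ * c) ≤ norm (a⁻¹ * b) + norm (b⁻¹ * c) := by
  have := norm_mul_le (a⁻¹ * b) (b⁻¹ * c)
  have e : a⁻¹ * b * (b⁻¹ * c) = a⁻¹ * c := by group
  rwa [e] at this

theorem norm_symm (a b : Lam) : norm (a⁻¹ * b) = norm (b⁻¹ * a) := by
  rw [← norm_inv_eq]; congr 1; group

theorem norm_le_add (a b : Lam) : norm b ≤ norm a + norm (a⁻¹ * b) := by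
  have := norm_mul_le a (a⁻¹ * b)
  rwa [mul_inv_cancel_left] at this

theorem norm_inv_mul_le (a b : Lam) : norm (a⁻¹ * b) ≤ norm a + norm b := by
  have := norm_mul_le a⁻¹ b
  rwa [norm_inv_eq] at this

theorem loc_of_rel {T₁ T₂ : Type} {K N : ℕ} {τ₁ : T₁} {en₁ : Option (Fin 3)} {τ₂ : T₂}
    {en₂ : Option (Fin 3)} {β₁ β₂ : Fin 3 → ℤ → ℤ} (S₁ : Side K en₁ β₁) (S₂ : Side K en₂ β₂)
    (s : Fin 3 → Fin 3) (m : Step T₁ → Step T₂)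
    (h : ∀ a, VS τ₁ en₁ a → VS τ₂ en₂ (m a) ∧ (m a).j = s a.j ∧
      β₁ a.j a.c = β₂ (m a).j (m a).c ∧ norm ((S₁.Θ a)⁻¹ * S₂.Θ (m a)) ≤ N) :
    Loc (4 * N + 10 * K + 6) τ₁ en₁ m := by
  have hl : ∀ a : Step T₂, norm a.l ≤ norm (S₂.Θ a) + K := by
    intro a
    have h1 := norm_le_mul (S₂.w a.j (β₂ a.j a.c) a.c a.l) a.l
    have h2 := (S₂.wq a.j (β₂ a.j a.c)).nw a.c a.l
    unfold Side.Θ
    omega
  have hl1 : ∀ a : Step T₁, norm (S₁.Θ a) ≤ norm a.l + K := by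
    intro a
    have h1 := norm_mul_le (S₁.w a.j (β₁ a.j a.c) a.c a.l) a.l
    have h2 := (S₁.wq a.j (β₁ a.j a.c)).nw a.c a.l
    unfold Side.Θ
    omega
  constructor
  · intro a ha hn
    obtain ⟨-, -, -, h4⟩ := h a ha
    have := hl (m a)
    have := hl1 a
    have := norm_le_add (S₁.Θ a) (S₂.Θ (m a))
    omega
  · intro a b ha hb ej ec hn
    obtain ⟨va, ja, βa, na⟩ := h a ha
    obtain ⟨vb, jb, βb, nb⟩ := h b hb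
    have h1 : norm ((S₁.Θ a)⁻¹ * S₁.Θ b) ≤ 4 * K + 3 := by
      rcases (S₁.wq a.j (β₁ a.j a.c)).pc a.c a.l b.l with h2 | h2
      · unfold Side.Θ
        rw [← ej, ← ec, ← h2]
        have e : (S₁.w a.j (β₁ a.j a.c) a.c a.l * a.l)⁻¹ * (S₁.w a.j (β₁ a.j a.c) a.c a.l * b.l)
          = a.l⁻¹ * b.l := by group
        rw [e]; omega
      · have := hl1 a
        have := hl1 b
        have := norm_le_add a.l b.l
        have := norm_inv_mul_le (S₁.Θ a) (S₁.Θ b)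
        omega
    have h2 : norm ((S₂.Θ (m a))⁻¹ * S₂.Θ (m b)) ≤ 2 * N + 4 * K + 3 := by
      have := norm_tri (S₂.Θ (m a)) (S₁.Θ a) (S₂.Θ (m b))
      have := norm_tri (S₁.Θ a) (S₁.Θ b) (S₂.Θ (m b))
      have := norm_symm (S₂.Θ (m a)) (S₁.Θ a)
      omega
    have ej' : (m a).j = (m b).j := by rw [ja, jb, ej]
    have ek : β₂ (m a).j (m a).c = β₂ (m b).j (m b).c := by rw [← βa, ← βb, ej, ec]
    have ma : (m a).c ∈ S₂.B (m a).j (β₂ (m a).j (m a).c) := (S₂.mem _ _ _).mpr ⟨rfl, va.1⟩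
    have mb : (m b).c ∈ S₂.B (m a).j (β₂ (m a).j (m a).c) :=
      (S₂.mem _ _ _).mpr ⟨by rw [ek, ej'], ej' ▸ vb.1⟩
    obtain ⟨l1, l2⟩ := (S₂.wq (m a).j (β₂ (m a).j (m a).c)).li _ ma (m a).l
    obtain ⟨l3, l4⟩ := (S₂.wq (m a).j (β₂ (m a).j (m a).c)).li _ mb (m b).l
    have eΘb : S₂.Θ (m b) = S₂.w (m a).j (β₂ (m a).j (m a).c) (m b).c (m b).l * (m b).l := by
      unfold Side.Θ; rw [ek, ej']
    have eΘa : S₂.Θ (m a) = S₂.w (m a).j (β₂ (m a).j (m a).c) (m a).c (m a).l * (m a).l := rfl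
    rw [← eΘa] at l1 l2
    rw [← eΘb] at l3 l4
    rcases (S₂.wq (m a).j (β₂ (m a).j (m a).c)).pc' (S₂.Θ (m a)) (S₂.Θ (m b)) with ⟨h3, h4⟩ | h3
    · left
      refine ⟨by rw [← l1, ← l3, h3], ?_⟩
      have ew : S₂.w (m a).j (β₂ (m a).j (m a).c) (m a).c (m a).l
          = S₂.w (m a).j (β₂ (m a).j (m a).c) (m b).c (m b).l :=
        inv_injective (by rw [← l2, ← l4, h4])
      rw [eΘa, eΘb, ew] at h2
      have e : ∀ x y z : Lam, (x * y)⁻¹ * (x * z) = y⁻¹ * z := by intros; group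
      rw [e] at h2
      omega
    · right
      have := hl (m a)
      have := hl (m b)
      have := norm_le_add (S₂.Θ (m a)) (S₂.Θ (m b))
      omega

theorem Loc.mono {T₁ T₂ : Type} {C C' : ℕ} {τ : T₁} {en : Option (Fin 3)} {m : Step T₁ → Step T₂}
    (h : Loc C τ en m) (hC : C ≤ C') : Loc C' τ en m := by
  refine ⟨fun a ha hn => (h.1 a ha hn).trans hC, fun a b ha hb ej ec hn => ?_⟩
  rcases h.2 a b ha hb ej ec hn with ⟨h1, h2⟩ | ⟨h1, h2⟩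
  · left; exact ⟨h1, h2.trans hC⟩
  · right; exact ⟨h1.trans hC, h2.trans hC⟩

theorem exists_matching (T₁ T₂ : Type) [Finite T₁] [Finite T₂] (K : ℕ) : ∃ C : ℕ,
    ∀ (τ₁ : T₁) (en₁ : Option (Fin 3)) (τ₂ : T₂) (en₂ : Option (Fin 3)) (β₁ β₂ : Fin 3 → ℤ → ℤ)
    (_ : BlockOK K en₁ β₁) (_ : BlockOK K en₂ β₂) (σ : Equiv.Perm (Fin 3))
    (A : Fin 3 → T₁ × Fin 3 → T₂ × Fin 3 → Prop) (_ : ∀ j α, ∃ α', A j α α')
    (_ : ∀ j α', ∃ α, A j α α'),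
    ∃ (m : Step T₁ → Step T₂) (m' : Step T₂ → Step T₁),
      (∀ a, VS τ₁ en₁ a → VS τ₂ en₂ (m a) ∧ m' (m a) = a ∧ (m a).j = σ a.j ∧
        β₁ a.j a.c = β₂ (m a).j (m a).c ∧ A a.j (a.τ, a.i) ((m a).τ, (m a).i)) ∧
      (∀ a', VS τ₂ en₂ a' → VS τ₁ en₁ (m' a') ∧ m (m' a') = a') ∧
      Loc C τ₁ en₁ m ∧ Loc C τ₂ en₂ m' := by
  classical
  obtain ⟨N₁, h₁⟩ := exists_inj T₁ K
  obtain ⟨N₂, h₂⟩ := exists_inj T₂ K
  refine ⟨4 * (N₁ + N₂) + 10 * K + 6, ?_⟩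
  intro τ₁ en₁ τ₂ en₂ β₁ β₂ hβ₁ hβ₂ σ A hA₁ hA₂
  obtain ⟨S₁⟩ := exists_side hβ₁
  obtain ⟨S₂⟩ := exists_side hβ₂
  obtain ⟨f, hf, hf'⟩ := h₁ T₂ τ₁ en₁ τ₂ en₂ β₁ β₂ S₁ S₂ σ A hA₁
  obtain ⟨g, hg, hg'⟩ := h₂ T₁ τ₂ en₂ τ₁ en₁ β₂ β₁ S₂ S₁ σ.symm
    (fun j' α' α => A (σ.symm j') α α') (fun j α' => hA₂ _ _)
  obtain ⟨h, hb, hR⟩ := Function.Embedding.schroeder_bernstein_of_rel hf hg
    (fun a a' => a'.1.j = σ a.1.j ∧ β₁ a.1.j a.1.c = β₂ a'.1.j a'.1.c ∧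
        A a.1.j (a.1.τ, a.1.i) (a'.1.τ, a'.1.i) ∧
        norm ((S₁.Θ a.1)⁻¹ * S₂.Θ a'.1) ≤ N₁ + N₂)
    (fun a => by
      obtain ⟨h1, h2, h3, h4⟩ := hf' a
      exact ⟨h1, h2, h3, by omega⟩)
    (fun b => by
      obtain ⟨h1, h2, h3, h4⟩ := hg' b
      refine ⟨by rw [h1]; simp, h2.symm, by rw [h1]; exact h3, ?_⟩
      rw [norm_symm]; omega)
  let e := Equiv.ofBijective h hb
  let m : Step T₁ → Step T₂ := fun a =>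
    if ha : VS τ₁ en₁ a then (e ⟨a, ha⟩).1 else ⟨0, 0, 1, τ₂, 0⟩
  let m' : Step T₂ → Step T₁ := fun a =>
    if ha : VS τ₂ en₂ a then (e.symm ⟨a, ha⟩).1 else ⟨0, 0, 1, τ₁, 0⟩
  have hm : ∀ a (ha : VS τ₁ en₁ a), m a = (e ⟨a, ha⟩).1 := fun a ha => dif_pos ha
  have hm' : ∀ a (ha : VS τ₂ en₂ a), m' a = (e.symm ⟨a, ha⟩).1 := fun a ha => dif_pos ha
  have H1 : ∀ a, VS τ₁ en₁ a → VS τ₂ en₂ (m a) ∧ m' (m a) = a ∧ (m a).j = σ a.j ∧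
        β₁ a.j a.c = β₂ (m a).j (m a).c ∧ A a.j (a.τ, a.i) ((m a).τ, (m a).i) ∧
        norm ((S₁.Θ a)⁻¹ * S₂.Θ (m a)) ≤ N₁ + N₂ := by
    intro a ha
    rw [hm a ha]
    refine ⟨(e ⟨a, ha⟩).2, ?_, hR ⟨a, ha⟩⟩
    rw [hm' _ (e ⟨a, ha⟩).2]
    simp
  have H2 : ∀ a', VS τ₂ en₂ a' → VS τ₁ en₁ (m' a') ∧ m (m' a') = a' := by
    intro a ha
    rw [hm' a ha]
    refine ⟨(e.symm ⟨a, ha⟩).2, ?_⟩
    rw [hm _ (e.symm ⟨a, ha⟩).2]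
    simp
  refine ⟨m, m', fun a ha => ?_, H2, ?_, ?_⟩
  · obtain ⟨h1, h2, h3, h4, h5, -⟩ := H1 a ha
    exact ⟨h1, h2, h3, h4, h5⟩
  · refine loc_of_rel (τ₂ := τ₂) S₁ S₂ σ m fun a ha => ?_
    obtain ⟨h1, h2, h3, h4, h5, h6⟩ := H1 a ha
    exact ⟨h1, h3, h4, h6⟩
  · refine loc_of_rel (τ₂ := τ₁) S₂ S₁ σ.symm m' fun a ha => ?_
    obtain ⟨v, e1⟩ := H2 a ha
    obtain ⟨h1, h2, h3, h4, h5, h6⟩ := H1 _ v
    rw [e1] at h3 h4 h6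
    refine ⟨v, by rw [h3]; simp, h4.symm, ?_⟩
    rw [norm_symm]; exact h6

end Pool.Agent.H728Z.FBC
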